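import Mathlib
import Pool.Agent.H62.Area

/-!
# Tools for MP_3c4b73_an: holomorphic parameter integrals, the mean value inequality in `L²`,
and the Gamma integral with a complex rate.
-/

open MeasureTheory Set Filter Metric
open scoped Real ENNReal Topology

namespace Pool.Agent.Worm.Br

/-- Holomorphic dependence of an integral on a parameter, with a bound on the integrand only. -/
theorem differentiableAt_integral {α : Type*} [MeasurableSpace α] {μ : Measure α}
    {f : ℂ → α → ℂ} {z0 : ℂ} {ρ : ℝ} (hρ : 0 < ρ) {g : α → ℝ} (hg : Integrable g μ)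
    (hmeas : ∀ z ∈ ball z0 ρ, AEStronglyMeasurable (f z) μ)
    (hdiff : ∀ᵐ a ∂μ, DifferentiableOn ℂ (fun z => f z a) (ball z0 ρ))
    (hbd : ∀ᵐ a ∂μ, ∀ z ∈ ball z0 ρ, ‖f z a‖ ≤ g a) :
    DifferentiableAt ℂ (fun z => ∫ a, f z a ∂μ) z0 := by
  have hρ2 : 0 < ρ / 2 := by linarith
  have hz0 : z0 ∈ ball z0 ρ := mem_ball_self hρ
  -- the derivative of the integrand
  set F' : ℂ → α → ℂ := fun z a => deriv (fun z => f z a) z with hF'
  have hderiv : ∀ᵐ a ∂μ, ∀ x ∈ ball z0 (ρ / 2), HasDerivAt (fun z => f z a) (F' x a) x := by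
    filter_upwards [hdiff] with a ha x hx
    have hx' : x ∈ ball z0 ρ := ball_subset_ball (by linarith) hx
    exact (ha.differentiableAt (isOpen_ball.mem_nhds hx')).hasDerivAt
  have hsub : ∀ x ∈ ball z0 (ρ / 2), closedBall x (ρ / 4) ⊆ ball z0 ρ := by
    intro x hx y hy
    rw [mem_ball] at hx ⊢
    rw [mem_closedBall] at hy
    calc dist y z0 ≤ dist y x + dist x z0 := dist_triangle _ _ _
      _ < ρ := by linarith
  have hbound : ∀ᵐ a ∂μ, ∀ x ∈ ball z0 (ρ / 2), ‖F' x a‖ ≤ g a / (ρ / 4) := by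
    filter_upwards [hdiff, hbd] with a ha hb x hx
    refine Complex.norm_deriv_le_of_forall_mem_sphere_norm_le (by linarith)
      (ha.diffContOnCl_ball (hsub x hx)) ?_
    intro z hz
    exact hb z (hsub x hx (sphere_subset_closedBall hz))
  have hF'meas : AEStronglyMeasurable (F' z0) μ := by
    set δ : ℕ → ℂ := fun n => (((ρ / 2) / (n + 1 : ℝ) : ℝ) : ℂ) with hδ
    have hδpos : ∀ n : ℕ, 0 < (ρ / 2) / (n + 1 : ℝ) := fun n => div_pos hρ2 (by positivity)
    have hδ0 : Tendsto δ atTop (𝓝 0) := by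
      have h1 : Tendsto (fun n : ℕ => (ρ / 2) / (n + 1 : ℝ)) atTop (𝓝 0) := by
        have h0 := (tendsto_one_div_add_atTop_nhds_zero_nat (𝕜 := ℝ)).const_mul (ρ / 2)
        rw [mul_zero] at h0
        refine h0.congr fun n => ?_
        ring
      have h2 := (Complex.continuous_ofReal.tendsto 0).comp h1
      rw [Complex.ofReal_zero] at h2
      exact h2
    have hδne : ∀ n, δ n ≠ 0 := fun n => by
      simp only [hδ]
      exact_mod_cast (hδpos n).ne'
    have hmem : ∀ n, z0 + δ n ∈ ball z0 ρ := by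
      intro n
      rw [mem_ball, dist_eq_norm, add_sub_cancel_left]
      simp only [hδ]
      rw [Complex.norm_real, Real.norm_of_nonneg (hδpos n).le]
      have : (ρ / 2) / (n + 1 : ℝ) ≤ ρ / 2 := div_le_self hρ2.le (by linarith [n.cast_nonneg (α := ℝ)])
      linarith
    refine aestronglyMeasurable_of_tendsto_ae atTop
      (f := fun n a => (δ n)⁻¹ * (f (z0 + δ n) a - f z0 a)) ?_ ?_
    · intro n
      exact ((hmeas _ (hmem n)).sub (hmeas _ hz0)).const_mul _
    · filter_upwards [hderiv] with a ha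
      have h1 := (ha z0 (mem_ball_self hρ2))
      rw [hasDerivAt_iff_tendsto_slope_zero] at h1
      have h2 : Tendsto δ atTop (𝓝[≠] 0) :=
        tendsto_nhdsWithin_iff.2 ⟨hδ0, Eventually.of_forall hδne⟩
      have h3 := h1.comp h2
      simpa [Function.comp_def, smul_eq_mul] using h3
  have hint : Integrable (f z0) μ := by
    refine hg.mono' (hmeas _ hz0) ?_
    filter_upwards [hbd] with a ha
    exact ha z0 hz0
  have hkey := hasDerivAt_integral_of_dominated_loc_of_deriv_le (μ := μ) (F := f) (F' := F')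
    (bound := fun a => g a / (ρ / 4)) (x₀ := z0) (ball_mem_nhds z0 hρ2)
    (Filter.eventually_of_mem (ball_mem_nhds z0 hρ) hmeas) hint hF'meas hbound
    (hg.div_const _) hderiv
  exact hkey.2.differentiableAt

/-- Mean value inequality for circles. -/
theorem circle_sq_le {G : ℂ → ℂ} {w : ℂ} {s ρ : ℝ} (hs : 0 < s) (hsρ : s < ρ)
    (hG : DifferentiableOn ℂ G (ball w ρ)) :
    ENNReal.ofReal (2 * π) * ‖G w‖ₑ ^ 2 ≤ ∫⁻ θ in Ioo (-π) π, ‖G (circleMap w s θ)‖ₑ ^ 2 := by
  have hcl : closedBall w |s| ⊆ ball w ρ := by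
    rw [abs_of_pos hs]
    exact closedBall_subset_ball hsρ
  have h1 : DiffContOnCl ℂ (fun z => G z ^ 2) (ball w |s|) :=
    (hG.pow 2).diffContOnCl_ball hcl
  have h2 := h1.circleAverage
  rw [Real.circleAverage] at h2
  have hper : (∫ θ in (0 : ℝ)..2 * π, G (circleMap w s θ) ^ 2) =
      ∫ θ in (-π)..π, G (circleMap w s θ) ^ 2 := by
    have hp : Function.Periodic (fun θ => G (circleMap w s θ) ^ 2) (2 * π) := by
      intro θ
      simp only
      rw [periodic_circleMap]
    have := hp.intervalIntegral_add_eq 0 (-π)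
    rw [zero_add] at this
    rw [this]
    congr 1
    ring
  rw [hper, intervalIntegral.integral_of_le (by linarith [Real.pi_pos]),
    integral_Ioc_eq_integral_Ioo] at h2
  have h3 : (2 * π : ℂ) * G w ^ 2 = ∫ θ in Ioo (-π) π, G (circleMap w s θ) ^ 2 := by
    rw [← h2, Complex.real_smul]
    push_cast
    have hpi : (π : ℂ) ≠ 0 := by exact_mod_cast Real.pi_ne_zero
    field_simp
  have h4 : ENNReal.ofReal (2 * π) * ‖G w‖ₑ ^ 2 = ‖(2 * π : ℂ) * G w ^ 2‖ₑ := by
    rw [enorm_mul, enorm_pow]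
    congr 1
    have : (2 * π : ℂ) = ((2 * π : ℝ) : ℂ) := by push_cast; ring
    rw [this, ← ofReal_norm, Complex.norm_real, Real.norm_of_nonneg (by positivity)]
  rw [h4, h3]
  refine (enorm_integral_le_lintegral_enorm _).trans (le_of_eq ?_)
  congr 1
  ext θ
  rw [enorm_pow]

/-- Mean value inequality for discs. -/
theorem mean_sq {G : ℂ → ℂ} {w : ℂ} {ρ : ℝ} (hρ : 0 < ρ)
    (hG : DifferentiableOn ℂ G (ball w ρ)) :
    ENNReal.ofReal (π * ρ ^ 2) * ‖G w‖ₑ ^ 2 ≤ ∫⁻ z in ball w ρ, ‖G z‖ₑ ^ 2 := by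
  classical
  -- a measurable version
  set g : ℂ → ℂ := (ball w ρ).piecewise G 0 with hg
  have hgm : Measurable g :=
    hG.continuousOn.measurable_piecewise continuousOn_const measurableSet_ball
  have h1 : ∫⁻ z in ball w ρ, ‖G z‖ₑ ^ 2 = ∫⁻ z, ‖g z‖ₑ ^ 2 := by
    rw [← lintegral_indicator measurableSet_ball]
    congr 1
    ext z
    by_cases hz : z ∈ ball w ρ
    · simp [hg, hz]
    · simp [hg, hz]
  rw [h1]
  have h2 : ∫⁻ z, ‖g z‖ₑ ^ 2 = ∫⁻ z, ‖g (w + z)‖ₑ ^ 2 :=
    (lintegral_add_left_eq_self (fun z => ‖g z‖ₑ ^ 2) w).symm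
  rw [h2, Pool.Agent.H62.lintegral_polar (g := fun z => ‖g (w + z)‖ₑ ^ 2) (by fun_prop)]
  have h3 : ENNReal.ofReal (π * ρ ^ 2) * ‖G w‖ₑ ^ 2 =
      ∫⁻ s in Ioo (0 : ℝ) ρ, ENNReal.ofReal s * (ENNReal.ofReal (2 * π) * ‖G w‖ₑ ^ 2) := by
    have h5 : ∫⁻ s in Ioo (0 : ℝ) ρ, ENNReal.ofReal s = ENNReal.ofReal (ρ ^ 2 / 2) := by
      rw [← ofReal_integral_eq_lintegral_ofReal]
      · congr 1
        rw [← integral_Ioc_eq_integral_Ioo, ← intervalIntegral.integral_of_le hρ.le]
        simp
      · have : IntegrableOn (fun s : ℝ => s) (Icc 0 ρ) := continuous_id.continuousOn.integrableOn_Icc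
        exact this.mono_set Ioo_subset_Icc_self
      · filter_upwards [ae_restrict_mem measurableSet_Ioo] with s hs
        exact hs.1.le
    rw [lintegral_mul_const _ (by fun_prop), h5, ← mul_assoc, ← ENNReal.ofReal_mul (by positivity)]
    congr 2
    ring
  rw [h3]
  refine le_trans ?_ (lintegral_mono_set (μ := volume) (Ioo_subset_Ioi_self : Ioo (0 : ℝ) ρ ⊆ Ioi 0))
  refine lintegral_mono_ae ?_
  filter_upwards [ae_restrict_mem measurableSet_Ioo] with s hs
  gcongr
  refine (circle_sq_le hs.1 hs.2 hG).trans (le_of_eq ?_)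
  refine lintegral_congr fun θ => ?_
  have h6 : w + circleMap 0 s θ = circleMap w s θ := by
    simp [circleMap]
  have h7 : circleMap w s θ ∈ ball w ρ := by
    rw [mem_ball, dist_eq_norm]
    simp [circleMap, abs_of_pos hs.1, hs.2]
  rw [h6]
  simp [hg, h7]

theorem norm_cpow_mul_exp {a r : ℂ} {t : ℝ} (ht : 0 < t) :
    ‖(t : ℂ) ^ (a - 1) * Complex.exp (-(r * t))‖ = t ^ (a.re - 1) * Real.exp (-(r.re) * t) := by
  rw [norm_mul, Complex.norm_cpow_eq_rpow_re_of_pos ht, Complex.norm_exp]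
  simp

/-- The Gamma integral with a complex rate. -/
theorem gamma_integral {a r : ℂ} (ha : 0 < a.re) (hr : 0 < r.re) :
    ∫ t in Ioi (0:ℝ), (t:ℂ)^(a-1) * Complex.exp (-(r * t)) = (1/r)^a * Complex.Gamma a := by
  set U : Set ℂ := {r | 0 < r.re} with hU
  have hUo : IsOpen U := isOpen_lt continuous_const Complex.continuous_re
  have hUc : IsPreconnected U := (convex_halfSpace_re_gt 0).isPreconnected
  have h1 : AnalyticOnNhd ℂ (fun r : ℂ => ∫ t in Ioi (0:ℝ), (t:ℂ)^(a-1) * Complex.exp (-(r * t)))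
      U := by
    refine DifferentiableOn.analyticOnNhd ?_ hUo
    intro r0 hr0
    have hr0' : 0 < r0.re := hr0
    refine DifferentiableAt.differentiableWithinAt ?_
    refine differentiableAt_integral (ρ := r0.re / 2) (by linarith)
      (g := fun t : ℝ => t ^ (a.re - 1) * Real.exp (-(r0.re / 2) * t)) ?_ ?_ ?_ ?_
    · have := integrableOn_rpow_mul_exp_neg_mul_rpow (s := a.re - 1) (p := 1) (b := r0.re / 2)
        (by linarith) one_pos (by linarith)
      simp only [Real.rpow_one] at this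
      exact this
    · intro z _
      refine ContinuousOn.aestronglyMeasurable ?_ measurableSet_Ioi
      refine ContinuousOn.mul ?_ (by fun_prop)
      intro t ht
      refine ContinuousAt.continuousWithinAt ?_
      exact (Complex.continuousAt_ofReal_cpow_const _ _ (Or.inr (ne_of_gt ht)))
    · refine Eventually.of_forall fun t => ?_
      fun_prop
    · filter_upwards [ae_restrict_mem measurableSet_Ioi] with t ht z hz
      rw [norm_cpow_mul_exp ht]
      have h2 : r0.re / 2 ≤ z.re := by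
        have h3 : |(z - r0).re| ≤ ‖z - r0‖ := Complex.abs_re_le_norm _
        rw [mem_ball, dist_eq_norm] at hz
        have h4 := abs_lt.1 (h3.trans_lt hz)
        rw [Complex.sub_re] at h4
        linarith [h4.1]
      have ht' : 0 < t := ht
      gcongr
  have h2 : AnalyticOnNhd ℂ (fun r : ℂ => (1/r)^a * Complex.Gamma a) U := by
    refine DifferentiableOn.analyticOnNhd ?_ hUo
    intro r0 hr0
    have hr0' : 0 < r0.re := hr0
    have hne : r0 ≠ 0 := by
      rintro rfl
      simp at hr0'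
    refine DifferentiableAt.differentiableWithinAt ?_
    refine DifferentiableAt.mul_const ?_ _
    refine DifferentiableAt.cpow_const ?_ ?_
    · exact (differentiableAt_const _).div differentiableAt_id hne
    · left
      rw [one_div, Complex.inv_re]
      exact div_pos hr0' (Complex.normSq_pos.2 hne)
  have h3 : ∃ᶠ r in 𝓝[≠] (1 : ℂ), (∫ t in Ioi (0:ℝ), (t:ℂ)^(a-1) * Complex.exp (-(r * t))) =
      (1/r)^a * Complex.Gamma a := by
    have h4 : Tendsto (fun n : ℕ => (1 : ℂ) + ((1 / ((n : ℝ) + 1) : ℝ) : ℂ)) atTop (𝓝[≠] 1) := by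
      refine tendsto_nhdsWithin_iff.2 ⟨?_, Eventually.of_forall fun n => ?_⟩
      · have h0 := (Complex.continuous_ofReal.tendsto 0).comp
          (tendsto_one_div_add_atTop_nhds_zero_nat (𝕜 := ℝ))
        have h5 := h0.const_add (1 : ℂ)
        rw [Complex.ofReal_zero, add_zero] at h5
        exact h5
      · simp only [mem_compl_iff, mem_singleton_iff, add_eq_left, Complex.ofReal_eq_zero]
        positivity
    refine h4.frequently (Eventually.frequently (Eventually.of_forall fun n => ?_))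
    have h6 : (1 : ℂ) + ((1 / ((n : ℝ) + 1) : ℝ) : ℂ) = ((1 + 1 / ((n : ℝ) + 1) : ℝ) : ℂ) := by
      push_cast; ring
    rw [h6]
    exact Complex.integral_cpow_mul_exp_neg_mul_Ioi ha (by positivity)
  exact h1.eqOn_of_preconnected_of_frequently_eq h2 hUc (by simp [hU]) h3 hr

end Pool.Agent.Worm.Br
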