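import Pool.Agent.Worm.Br.Param

/-!
# The Borel transform on one slice (MP_3c4b73_an)
-/

open MeasureTheory Set Filter Metric
open scoped Real ENNReal Topology ComplexConjugate

namespace Pool.Agent.Worm.Br

/-- The half plane `Re ζ > 1/2`. -/
def HP : Set ℂ := {ζ | 1 / 2 < ζ.re}

/-- The point `c + i u`. -/
noncomputable abbrev ln (c u : ℝ) : ℂ := (c : ℂ) + u * Complex.I

theorem isOpen_HP : IsOpen HP := isOpen_lt continuous_const Complex.continuous_re

theorem measurableSet_HP : MeasurableSet HP := isOpen_HP.measurableSet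

@[simp] theorem ln_re (c u : ℝ) : (ln c u).re = c := by simp [ln]

@[simp] theorem ln_im (c u : ℝ) : (ln c u).im = u := by simp [ln]

theorem norm_ln_sq (c u : ℝ) : ‖ln c u‖ ^ 2 = c ^ 2 + u ^ 2 := by
  rw [Complex.sq_norm, Complex.normSq_apply, ln_re, ln_im]
  ring

theorem ln_ne_zero {c : ℝ} (hc : 0 < c) (u : ℝ) : ln c u ≠ 0 := by
  intro h
  have := congrArg Complex.re h
  simp at this
  linarith

theorem norm_ln_pos {c : ℝ} (hc : 0 < c) (u : ℝ) : 0 < ‖ln c u‖ := norm_pos_iff.2 (ln_ne_zero hc u)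

theorem ne_zero_of_HP {ζ : ℂ} (h : ζ ∈ HP) : ζ ≠ 0 := by
  rintro rfl
  have : (1 / 2 : ℝ) < (0 : ℂ).re := h
  simp at this
  linarith

theorem norm_rpow_eq {c u q : ℝ} : ‖ln c u‖ ^ q = (c ^ 2 + u ^ 2) ^ (q / 2) := by
  rw [← norm_ln_sq, ← Real.rpow_natCast, ← Real.rpow_mul (norm_nonneg _)]
  congr 1
  push_cast
  ring

theorem rpow_ln_le {c u q : ℝ} (hc : 1 / 2 ≤ c) (hq : 0 ≤ q) :
    ‖ln c u‖ ^ (-q) ≤ 2 ^ q * (1 + u ^ 2) ^ (-q / 2) := by
  rw [norm_rpow_eq]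
  have h1 : (1 + u ^ 2) / 4 ≤ c ^ 2 + u ^ 2 := by nlinarith [sq_nonneg u]
  have h2 : 0 < (1 + u ^ 2) / 4 := by positivity
  have h3 : (c ^ 2 + u ^ 2) ^ (-q / 2) ≤ ((1 + u ^ 2) / 4) ^ (-q / 2) :=
    Real.rpow_le_rpow_of_nonpos h2 h1 (by linarith)
  refine h3.trans (le_of_eq ?_)
  rw [Real.div_rpow (by positivity) (by norm_num)]
  have h4 : (4 : ℝ) ^ (-q / 2) = (2 ^ q)⁻¹ := by
    rw [show (4 : ℝ) = 2 ^ (2 : ℝ) by norm_num, ← Real.rpow_mul (by norm_num),
      ← Real.rpow_neg (by norm_num)]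
    congr 1
    ring
  rw [h4]
  field_simp

theorem integrable_japanese {q : ℝ} (hq : 1 < q) :
    Integrable (fun u : ℝ => (1 + u ^ 2) ^ (-q / 2)) := by
  have := integrable_rpow_neg_one_add_norm_sq (E := ℝ) (μ := volume) (r := q) (by simpa using hq)
  simpa using this

theorem measurable_ln (c : ℝ) : Measurable (fun u : ℝ => ln c u) := by
  unfold ln
  fun_prop

theorem continuous_ln (c : ℝ) : Continuous (fun u : ℝ => ln c u) := by
  unfold ln
  fun_prop

/-- Shift of a vertical line. -/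
theorem line_shift_aux {g : ℂ → ℂ} {c c' M q : ℝ} (hq : 1 < q) (hc : 1 / 2 < c)
    (hcc : c ≤ c') (hg : DifferentiableOn ℂ g HP)
    (hM : ∀ ζ : ℂ, c ≤ ζ.re → ζ.re ≤ c' → ‖g ζ‖ ≤ M * ‖ζ‖ ^ (-q)) :
    (∀ x, c ≤ x → x ≤ c' → Integrable (fun u : ℝ => g (ln x u))) ∧
    ∫ u : ℝ, g (ln c u) = ∫ u : ℝ, g (ln c' u) := by
  have hM0 : 0 ≤ M := by
    have h1 := hM (ln c 0) (by simp) (by simpa using hcc)
    have h2 : 0 < ‖ln c 0‖ ^ (-q) := Real.rpow_pos_of_pos (norm_ln_pos (by linarith) 0) _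
    by_contra hneg
    push Not at hneg
    have := norm_nonneg (g (ln c 0))
    nlinarith
  have hint : ∀ x, c ≤ x → x ≤ c' → Integrable (fun u : ℝ => g (ln x u)) := by
    intro x hx hx'
    have h1 : Integrable (fun u : ℝ => M * (2 ^ q * (1 + u ^ 2) ^ (-q / 2))) :=
      ((integrable_japanese hq).const_mul _).const_mul _
    refine h1.mono' ?_ (Eventually.of_forall fun u => ?_)
    · refine Continuous.aestronglyMeasurable ?_
      have h2 : ContinuousOn g HP := hg.continuousOn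
      refine h2.comp_continuous (continuous_ln x) fun u => ?_
      simp only [HP, mem_ofPred_eq, ln_re]
      linarith
    · have h3 := hM (ln x u) (by simpa using hx) (by simpa using hx')
      have h4 := rpow_ln_le (c := x) (u := u) (q := q) (by linarith) (by linarith)
      exact h3.trans (mul_le_mul_of_nonneg_left h4 hM0)
  refine ⟨hint, ?_⟩
  -- the rectangle identity
  have hrect : ∀ U : ℝ, (∫ x in c..c', g (x + (-U : ℝ) * Complex.I)) -
      (∫ x in c..c', g (x + (U : ℝ) * Complex.I)) +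
      Complex.I • (∫ y in (-U)..U, g (ln c' y)) - Complex.I • (∫ y in (-U)..U, g (ln c y)) = 0 := by
    intro U
    have h5 := Complex.integral_boundary_rect_eq_zero_of_differentiableOn g
      (ln c (-U)) (ln c' U) ?_
    · rw [ln_re, ln_im, ln_re, ln_im] at h5
      exact h5
    · refine hg.mono ?_
      intro z hz
      rw [ln_re, ln_im, ln_re, ln_im] at hz
      have h6 := hz.1
      simp only [mem_preimage, uIcc_of_le hcc, mem_Icc] at h6
      simp only [HP, mem_ofPred_eq]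
      linarith [h6.1]
  have hhor : ∀ ε : ℝ, ε = 1 ∨ ε = -1 →
      Tendsto (fun U : ℝ => ∫ x in c..c', g (x + (ε * U : ℝ) * Complex.I)) atTop (𝓝 0) := by
    intro ε hε
    have h7 : Tendsto (fun U : ℝ => M * U ^ (-q) * |c' - c|) atTop (𝓝 0) := by
      have := ((tendsto_rpow_neg_atTop (y := q) (by linarith)).const_mul M).mul_const |c' - c|
      simpa using this
    refine squeeze_zero_norm' ?_ h7
    filter_upwards [eventually_gt_atTop (0 : ℝ)] with U hU
    refine intervalIntegral.norm_integral_le_of_norm_le_const ?_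
    intro x hx
    rw [uIoc_of_le hcc] at hx
    have h8 : ‖g (ln x (ε * U))‖ ≤ M * ‖ln x (ε * U)‖ ^ (-q) :=
      hM _ (by simpa using hx.1.le) (by simpa using hx.2)
    refine h8.trans (mul_le_mul_of_nonneg_left ?_ hM0)
    refine Real.rpow_le_rpow_of_nonpos hU ?_ (by linarith)
    have h9 := Complex.abs_im_le_norm (ln x (ε * U))
    rw [ln_im] at h9
    rcases hε with rfl | rfl
    · rw [one_mul] at h9 ⊢
      rwa [abs_of_pos hU] at h9
    · rw [neg_one_mul] at h9 ⊢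
      rwa [abs_neg, abs_of_pos hU] at h9
  have hv : ∀ x, c ≤ x → x ≤ c' →
      Tendsto (fun U : ℝ => ∫ y in (-U)..U, g (ln x y)) atTop (𝓝 (∫ y, g (ln x y))) := by
    intro x hx hx'
    exact intervalIntegral_tendsto_integral (hint x hx hx') tendsto_neg_atTop_atBot tendsto_id
  have hlim := (((hhor (-1) (Or.inr rfl)).sub (hhor 1 (Or.inl rfl))).add
    ((hv c' hcc le_rfl).const_smul Complex.I)).sub ((hv c le_rfl hcc).const_smul Complex.I)
  have hzero : Tendsto (fun U : ℝ => (∫ x in c..c', g (x + ((-1) * U : ℝ) * Complex.I)) -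
      (∫ x in c..c', g (x + (1 * U : ℝ) * Complex.I)) +
      Complex.I • (∫ y in (-U)..U, g (ln c' y)) - Complex.I • (∫ y in (-U)..U, g (ln c y)))
      atTop (𝓝 0) := by
    refine tendsto_const_nhds.congr fun U => ?_
    have := hrect U
    rw [neg_one_mul, one_mul]
    exact this.symm
  have huniq := tendsto_nhds_unique hlim hzero
  rw [sub_zero, zero_add, sub_eq_zero] at huniq
  have h10 := smul_right_injective ℂ Complex.I_ne_zero huniq
  exact h10.symm

/-- Holomorphic functions on the half plane with a bound. -/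
structure Nice (f : ℂ → ℂ) : Prop where
  meas : Measurable f
  hol : DifferentiableOn ℂ f HP
  bd : ∀ c0 : ℝ, 1 / 2 < c0 → ∃ K : ℝ, ∀ ζ : ℂ, c0 ≤ ζ.re → ‖f ζ‖ ≤ K * ‖ζ‖ ^ (1 / 4 : ℝ)

/-- The integrand of the line integral. -/
noncomputable def gl (f : ℂ → ℂ) (lam : ℝ) (ζ : ℂ) : ℂ := f ζ / ζ ^ 2 * Complex.exp (lam * ζ)

/-- The line integral. -/
noncomputable def vl (f : ℂ → ℂ) (lam c : ℝ) : ℂ := ∫ u : ℝ, gl f lam (ln c u)

theorem gl_hol {f : ℂ → ℂ} (hf : Nice f) (lam : ℝ) : DifferentiableOn ℂ (gl f lam) HP := by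
  unfold gl
  refine DifferentiableOn.mul (DifferentiableOn.div hf.hol (by fun_prop) ?_) (by fun_prop)
  intro ζ hζ
  exact pow_ne_zero 2 (ne_zero_of_HP hζ)

theorem gl_bd {f : ℂ → ℂ} (hf : Nice f) (lam : ℝ) {c c' : ℝ} (hc : 1 / 2 < c) (_hcc : c ≤ c') :
    ∃ M : ℝ, ∀ ζ : ℂ, c ≤ ζ.re → ζ.re ≤ c' → ‖gl f lam ζ‖ ≤ M * ‖ζ‖ ^ (-(7 / 4 : ℝ)) := by
  obtain ⟨K, hK⟩ := hf.bd c hc
  refine ⟨K * Real.exp (|lam| * c'), fun ζ h1 h2 => ?_⟩
  have hζ : 0 < ‖ζ‖ := by
    refine norm_pos_iff.2 (ne_zero_of_HP ?_)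
    show 1 / 2 < ζ.re
    linarith
  unfold gl
  rw [norm_mul, norm_div, norm_pow, Complex.norm_exp]
  have h3 : ((lam : ℂ) * ζ).re = lam * ζ.re := by simp
  rw [h3]
  have h4 : Real.exp (lam * ζ.re) ≤ Real.exp (|lam| * c') := by
    apply Real.exp_le_exp.2
    have h5 : lam * ζ.re ≤ |lam| * ζ.re :=
      mul_le_mul_of_nonneg_right (le_abs_self _) (by linarith)
    have h6 : |lam| * ζ.re ≤ |lam| * c' := mul_le_mul_of_nonneg_left h2 (abs_nonneg _)
    linarith
  have h7 := hK ζ h1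
  have h8 : ‖ζ‖ ^ (-(7 / 4 : ℝ)) = ‖ζ‖ ^ (1 / 4 : ℝ) / ‖ζ‖ ^ 2 := by
    rw [← Real.rpow_natCast, ← Real.rpow_sub hζ]
    norm_num
  rw [h8]
  have h9 : ‖f ζ‖ / ‖ζ‖ ^ 2 ≤ K * ‖ζ‖ ^ (1 / 4 : ℝ) / ‖ζ‖ ^ 2 := by gcongr
  calc ‖f ζ‖ / ‖ζ‖ ^ 2 * Real.exp (lam * ζ.re)
      ≤ (K * ‖ζ‖ ^ (1 / 4 : ℝ) / ‖ζ‖ ^ 2) * Real.exp (|lam| * c') := by
        refine mul_le_mul h9 h4 (Real.exp_pos _).le ?_
        exact (div_nonneg (norm_nonneg _) (by positivity)).trans h9
    _ = _ := by ring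

theorem gl_integrable {f : ℂ → ℂ} (hf : Nice f) (lam : ℝ) {c : ℝ} (hc : 1 / 2 < c) :
    Integrable (fun u : ℝ => gl f lam (ln c u)) := by
  obtain ⟨M, hM⟩ := gl_bd hf lam hc (le_refl c)
  exact (line_shift_aux (by norm_num) hc le_rfl (gl_hol hf lam) hM).1 c le_rfl le_rfl

theorem vl_eq {f : ℂ → ℂ} (hf : Nice f) (lam : ℝ) {c c' : ℝ} (hc : 1 / 2 < c) (hc' : 1 / 2 < c') :
    vl f lam c = vl f lam c' := by
  have key : ∀ {c c' : ℝ}, 1 / 2 < c → c ≤ c' → vl f lam c = vl f lam c' := by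
    intro c c' hc hcc
    obtain ⟨M, hM⟩ := gl_bd hf lam hc hcc
    exact (line_shift_aux (by norm_num) hc hcc (gl_hol hf lam) hM).2
  rcases le_total c c' with h | h
  · exact key hc h
  · exact (key hc' h).symm

theorem int_ln_rpow {c q : ℝ} (hc : 0 < c) :
    ∫ u, ‖ln c u‖ ^ (-q) = c ^ (1 - q) * ∫ v, ‖ln 1 v‖ ^ (-q) := by
  have h1 := Measure.integral_comp_mul_left (fun u => ‖ln c u‖ ^ (-q)) c
  have h2 : ∀ v : ℝ, ‖ln c (c * v)‖ ^ (-q) = c ^ (-q) * ‖ln 1 v‖ ^ (-q) := by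
    intro v
    have : ln c (c * v) = (c : ℂ) * ln 1 v := by
      simp only [ln]; push_cast; ring
    rw [this, norm_mul, Complex.norm_real, Real.norm_of_nonneg hc.le,
      Real.mul_rpow hc.le (norm_nonneg _)]
  simp only [h2] at h1
  rw [integral_const_mul, abs_of_pos (inv_pos.2 hc), smul_eq_mul] at h1
  have h3 : ∫ u, ‖ln c u‖ ^ (-q) = c * (c ^ (-q) * ∫ v, ‖ln 1 v‖ ^ (-q)) := by
    rw [h1]
    field_simp
  rw [h3, ← mul_assoc, sub_eq_add_neg, Real.rpow_add hc, Real.rpow_one]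

theorem integrable_ln_rpow {c q : ℝ} (hc : 1 / 2 ≤ c) (hq : 1 < q) :
    Integrable (fun u : ℝ => ‖ln c u‖ ^ (-q)) := by
  refine ((integrable_japanese hq).const_mul (2 ^ q)).mono' ?_ (Eventually.of_forall fun u => ?_)
  · refine Measurable.aestronglyMeasurable ?_
    have := measurable_ln c
    fun_prop
  · rw [Real.norm_of_nonneg (by positivity)]
    exact rpow_ln_le hc (by linarith)

/-- The constant `∫ |1 + iv|^{-q} dv`. -/
noncomputable def KK (q : ℝ) : ℝ := ∫ v : ℝ, ‖ln 1 v‖ ^ (-q)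

theorem KK_nonneg (q : ℝ) : 0 ≤ KK q := integral_nonneg fun v => by positivity

theorem lint_ln_rpow {c q : ℝ} (hc : 1 / 2 ≤ c) (hq : 1 < q) :
    ∫⁻ u, ENNReal.ofReal (‖ln c u‖ ^ (-q)) = ENNReal.ofReal (c ^ (1 - q) * KK q) := by
  rw [← ofReal_integral_eq_lintegral_ofReal (integrable_ln_rpow hc hq)
    (Eventually.of_forall fun u => by positivity), int_ln_rpow (by linarith)]
  rfl

theorem lint_cs {α : Type*} [MeasurableSpace α] {μ : Measure α} {a b : α → ℝ≥0∞}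
    (ha : AEMeasurable a μ) (hb : AEMeasurable b μ) :
    (∫⁻ x, a x * b x ∂μ) ^ 2 ≤ (∫⁻ x, a x ^ 2 ∂μ) * ∫⁻ x, b x ^ 2 ∂μ := by
  have h := ENNReal.lintegral_mul_le_Lp_mul_Lq μ Real.HolderConjugate.two_two ha hb
  simp only [ENNReal.rpow_two, Pi.mul_apply] at h
  have h2 : (∫⁻ x, a x * b x ∂μ) ^ 2 ≤
      ((∫⁻ x, a x ^ 2 ∂μ) ^ (1 / 2 : ℝ) * (∫⁻ x, b x ^ 2 ∂μ) ^ (1 / 2 : ℝ)) ^ 2 := by gcongr
  refine h2.trans (le_of_eq ?_)
  rw [mul_pow, ← ENNReal.rpow_natCast, ← ENNReal.rpow_natCast, ← ENNReal.rpow_mul,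
    ← ENNReal.rpow_mul]
  norm_num

/-- The energy. -/
noncomputable def en (r : ℝ) (f : ℂ → ℂ) : ℝ≥0∞ :=
  ∫⁻ ζ in HP, ENNReal.ofReal (‖f ζ‖ ^ 2 * ‖ζ‖ ^ (2 * r - 4))

theorem lintegral_HP {g : ℂ → ℝ≥0∞} (hg : Measurable g) :
    ∫⁻ ζ in HP, g ζ = ∫⁻ c in Ioi (1 / 2 : ℝ), ∫⁻ u : ℝ, g (ln c u) := by
  have h1 := Complex.volume_preserving_equiv_real_prod.symm
  rw [← lintegral_indicator measurableSet_HP, ← h1.lintegral_comp (hg.indicator measurableSet_HP),
    Measure.volume_eq_prod, lintegral_prod, ← lintegral_indicator measurableSet_Ioi]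
  · congr 1
    ext c
    by_cases hc : c ∈ Ioi (1 / 2 : ℝ)
    · rw [indicator_of_mem hc]
      refine lintegral_congr fun u => ?_
      have h2 : Complex.measurableEquivRealProd.symm (c, u) = ln c u := by
        apply Complex.ext <;> simp [Complex.measurableEquivRealProd]
      rw [h2, indicator_of_mem]
      show 1 / 2 < (ln c u).re
      rw [ln_re]
      exact hc
    · rw [indicator_of_notMem hc]
      have : ∀ u : ℝ, HP.indicator g (Complex.measurableEquivRealProd.symm (c, u)) = 0 := by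
        intro u
        have h2 : Complex.measurableEquivRealProd.symm (c, u) = ln c u := by
          apply Complex.ext <;> simp [Complex.measurableEquivRealProd]
        rw [h2, indicator_of_notMem]
        show ¬ (1 / 2 < (ln c u).re)
        rw [ln_re]
        exact hc
      simp only [this, lintegral_zero]
  · refine Measurable.aemeasurable ?_
    exact (hg.indicator measurableSet_HP).comp Complex.measurableEquivRealProd.symm.measurable

theorem vl_sq_le {f : ℂ → ℂ} (hf : Nice f) {r lam c : ℝ} (hr : 1 / 2 < r) (hc : 1 / 2 < c) :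
    ‖vl f lam c‖ₑ ^ 2 ≤ ENNReal.ofReal (Real.exp (2 * lam * c) * (c ^ (1 - 2 * r) * KK (2 * r))) *
      ∫⁻ u : ℝ, ENNReal.ofReal (‖f (ln c u)‖ ^ 2 * ‖ln c u‖ ^ (2 * r - 4)) := by
  have hm := measurable_ln c
  have hfm : Measurable (fun u : ℝ => f (ln c u)) := hf.meas.comp hm
  have h1 : ‖vl f lam c‖ₑ ≤ ∫⁻ u : ℝ, (ENNReal.ofReal (‖f (ln c u)‖ * ‖ln c u‖ ^ (r - 2))) *
      (ENNReal.ofReal (Real.exp (lam * c)) * ENNReal.ofReal (‖ln c u‖ ^ (-r))) := by
    refine (enorm_integral_le_lintegral_enorm _).trans (le_of_eq ?_)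
    refine lintegral_congr fun u => ?_
    have h0 := norm_ln_pos (c := c) (by linarith) u
    rw [← ofReal_norm, ← ENNReal.ofReal_mul (Real.exp_pos _).le, ← ENNReal.ofReal_mul (by positivity)]
    congr 1
    unfold gl
    rw [norm_mul, norm_div, norm_pow, Complex.norm_exp]
    have h3 : ((lam : ℂ) * ln c u).re = lam * c := by
      rw [Complex.re_ofReal_mul, ln_re]
    rw [h3]
    have h4 : ‖ln c u‖ ^ (r - 2) * ‖ln c u‖ ^ (-r) = (‖ln c u‖ ^ 2)⁻¹ := by
      rw [← Real.rpow_add h0, ← Real.rpow_natCast, ← Real.rpow_neg h0.le]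
      congr 1
      push_cast
      ring
    calc ‖f (ln c u)‖ / ‖ln c u‖ ^ 2 * Real.exp (lam * c)
        = ‖f (ln c u)‖ * (‖ln c u‖ ^ 2)⁻¹ * Real.exp (lam * c) := by ring
      _ = _ := by rw [← h4]; ring
  calc ‖vl f lam c‖ₑ ^ 2 ≤ _ := pow_le_pow_left' h1 2
    _ ≤ _ := lint_cs
        (hfm.norm.mul (hm.norm.pow_const (r - 2))).ennreal_ofReal.aemeasurable
        ((hm.norm.pow_const (-r)).ennreal_ofReal.const_mul _).aemeasurable
    _ = (∫⁻ u : ℝ, ENNReal.ofReal (‖f (ln c u)‖ ^ 2 * ‖ln c u‖ ^ (2 * r - 4))) *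
        (ENNReal.ofReal (Real.exp (2 * lam * c)) * ENNReal.ofReal (c ^ (1 - 2 * r) * KK (2 * r))) := by
        congr 1
        · refine lintegral_congr fun u => ?_
          have h0 := norm_ln_pos (c := c) (by linarith) u
          rw [← ENNReal.ofReal_pow (by positivity), mul_pow, ← Real.rpow_natCast (_ ^ (r - 2)),
            ← Real.rpow_mul h0.le]
          congr 3
          push_cast
          ring
        · rw [← lint_ln_rpow (c := c) (q := 2 * r) hc.le (by linarith), ← lintegral_const_mul _ (by fun_prop)]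
          refine lintegral_congr fun u => ?_
          have h0 := norm_ln_pos (c := c) (by linarith) u
          rw [mul_pow, ← ENNReal.ofReal_pow (Real.exp_pos _).le, ← ENNReal.ofReal_pow (by positivity)]
          congr 2
          · rw [← Real.exp_nat_mul]; congr 1; push_cast; ring
          · rw [← Real.rpow_natCast (_ ^ (-r)), ← Real.rpow_mul h0.le]
            congr 1
            push_cast
            ring
    _ = _ := by
        rw [← ENNReal.ofReal_mul (Real.exp_pos _).le, mul_comm]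

theorem slice_sq {f : ℂ → ℂ} (hf : Nice f) {r lam c1 c2 c : ℝ} (hr : 1 / 2 < r) (hlam : 0 ≤ lam)
    (h1 : 1 / 2 < c1) (_h12 : c1 < c2) (hc : 1 / 2 < c) :
    ENNReal.ofReal (c2 - c1) * ‖vl f lam c‖ₑ ^ 2 ≤
      ENNReal.ofReal (Real.exp (2 * lam * c2) * (c1 ^ (1 - 2 * r) * KK (2 * r))) * en r f := by
  have hfm := hf.meas
  set A : ℝ≥0∞ := ENNReal.ofReal (Real.exp (2 * lam * c2) * (c1 ^ (1 - 2 * r) * KK (2 * r))) with hA
  have h2 : ENNReal.ofReal (c2 - c1) * ‖vl f lam c‖ₑ ^ 2 =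
      ∫⁻ _x in Ioo c1 c2, ‖vl f lam c‖ₑ ^ 2 := by
    rw [setLIntegral_const, Real.volume_Ioo, mul_comm]
  rw [h2]
  calc ∫⁻ _x in Ioo c1 c2, ‖vl f lam c‖ₑ ^ 2
      ≤ ∫⁻ x in Ioo c1 c2, A *
        ∫⁻ u : ℝ, ENNReal.ofReal (‖f (ln x u)‖ ^ 2 * ‖ln x u‖ ^ (2 * r - 4)) := by
        refine lintegral_mono_ae ?_
        filter_upwards [ae_restrict_mem measurableSet_Ioo] with x hx
        rw [vl_eq hf lam hc (lt_trans h1 hx.1)]
        refine (vl_sq_le hf hr (lt_trans h1 hx.1)).trans ?_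
        gcongr
        refine ENNReal.ofReal_le_ofReal ?_
        have h3 : Real.exp (2 * lam * x) ≤ Real.exp (2 * lam * c2) :=
          Real.exp_le_exp.2 (mul_le_mul_of_nonneg_left hx.2.le (by linarith))
        have h4 : x ^ (1 - 2 * r) ≤ c1 ^ (1 - 2 * r) :=
          Real.rpow_le_rpow_of_nonpos (by linarith) hx.1.le (by linarith)
        have h5 := KK_nonneg (2 * r)
        have h6 : 0 ≤ x ^ (1 - 2 * r) := Real.rpow_nonneg (by linarith [hx.1]) _
        gcongr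
    _ ≤ ∫⁻ x in Ioi (1 / 2 : ℝ), A *
        ∫⁻ u : ℝ, ENNReal.ofReal (‖f (ln x u)‖ ^ 2 * ‖ln x u‖ ^ (2 * r - 4)) := by
        refine lintegral_mono_set ?_
        intro x hx
        exact lt_trans h1 hx.1
    _ = A * en r f := by
        have hmeas : Measurable (fun ζ : ℂ => ENNReal.ofReal (‖f ζ‖ ^ 2 * ‖ζ‖ ^ (2 * r - 4))) := by
          fun_prop
        rw [lintegral_const_mul, en, lintegral_HP hmeas]
        refine Measurable.lintegral_prod_right' (f := fun p : ℝ × ℝ =>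
          ENNReal.ofReal (‖f (ln p.1 p.2)‖ ^ 2 * ‖ln p.1 p.2‖ ^ (2 * r - 4))) ?_
        refine hmeas.comp ?_
        unfold ln
        fun_prop

theorem integrableOn_HP_rpow {p q : ℝ} (hq : 1 < q) (hpq : 2 < p + q) :
    IntegrableOn (fun ζ : ℂ => ‖ζ‖ ^ (-q) * (1 / ζ.re) ^ p) HP := by
  have hmeas : Measurable (fun ζ : ℂ => ‖ζ‖ ^ (-q) * (1 / ζ.re) ^ p) := by fun_prop
  refine ⟨hmeas.aestronglyMeasurable, ?_⟩
  rw [hasFiniteIntegral_iff_ofReal]
  swap
  · filter_upwards [ae_restrict_mem measurableSet_HP] with ζ hζ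
    have h1 : (0 : ℝ) < ζ.re := by
      have : (1 / 2 : ℝ) < ζ.re := hζ
      linarith
    positivity
  rw [lintegral_HP hmeas.ennreal_ofReal]
  have h1 : ∀ c ∈ Ioi (1 / 2 : ℝ), ∫⁻ u : ℝ, ENNReal.ofReal (‖ln c u‖ ^ (-q) * (1 / (ln c u).re) ^ p) =
      ENNReal.ofReal (c ^ (1 - p - q) * KK q) := by
    intro c hc
    have hc0 : (0 : ℝ) < c := by
      have : (1 / 2 : ℝ) < c := hc
      linarith
    simp only [ln_re]
    have h2 : ∀ u : ℝ, ENNReal.ofReal (‖ln c u‖ ^ (-q) * (1 / c) ^ p) =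
        ENNReal.ofReal ((1 / c) ^ p) * ENNReal.ofReal (‖ln c u‖ ^ (-q)) := by
      intro u
      rw [mul_comm, ENNReal.ofReal_mul (by positivity)]
    simp only [h2]
    rw [lintegral_const_mul _ ((measurable_ln c).norm.pow_const (-q)).ennreal_ofReal,
      lint_ln_rpow (le_of_lt hc) hq, ← ENNReal.ofReal_mul (by positivity)]
    congr 1
    rw [← mul_assoc, one_div, Real.inv_rpow hc0.le, ← Real.rpow_neg hc0.le, ← Real.rpow_add hc0]
    congr 2
    ring
  rw [setLIntegral_congr_fun measurableSet_Ioi h1]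
  have h3 : IntegrableOn (fun c : ℝ => c ^ (1 - p - q) * KK q) (Ioi (1 / 2 : ℝ)) :=
    (integrableOn_Ioi_rpow_of_lt (by linarith) (by norm_num)).mul_const _
  have h4 := h3.2
  rw [hasFiniteIntegral_iff_ofReal] at h4
  · exact h4
  · filter_upwards [ae_restrict_mem measurableSet_Ioi] with c hc
    have hc0 : (0 : ℝ) < c := by
      have : (1 / 2 : ℝ) < c := hc
      linarith
    have := KK_nonneg q
    positivity

theorem integral_HP {g : ℂ → ℂ} (hg : IntegrableOn g HP) :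
    ∫ ζ in HP, g ζ = ∫ c in Ioi (1 / 2 : ℝ), ∫ u : ℝ, g (ln c u) := by
  have h1 := Complex.volume_preserving_equiv_real_prod.symm
  have hi : Integrable (HP.indicator g) := (integrable_indicator_iff measurableSet_HP).2 hg
  have hi2 : Integrable (fun p : ℝ × ℝ => HP.indicator g (Complex.measurableEquivRealProd.symm p))
      (volume.prod volume) := by
    rw [← Measure.volume_eq_prod]
    exact (h1.integrable_comp_emb (MeasurableEquiv.measurableEmbedding _)).2 hi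
  rw [← integral_indicator measurableSet_HP, ← h1.integral_comp', Measure.volume_eq_prod,
    integral_prod _ hi2, ← integral_indicator measurableSet_Ioi]
  congr 1
  ext c
  have h2 : ∀ u : ℝ, Complex.measurableEquivRealProd.symm (c, u) = ln c u := by
    intro u
    apply Complex.ext <;> simp [Complex.measurableEquivRealProd]
  simp only [h2]
  by_cases hc : c ∈ Ioi (1 / 2 : ℝ)
  · rw [indicator_of_mem hc]
    congr 1
    ext u
    rw [indicator_of_mem]
    show 1 / 2 < (ln c u).re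
    rw [ln_re]
    exact hc
  · rw [indicator_of_notMem hc]
    have : ∀ u : ℝ, HP.indicator g (ln c u) = 0 := by
      intro u
      rw [indicator_of_notMem]
      show ¬ (1 / 2 < (ln c u).re)
      rw [ln_re]
      exact hc
    simp only [this, integral_zero]

theorem en_integrable {f : ℂ → ℂ} (hf : Measurable f) {r : ℝ} (hen : en r f ≠ ⊤) :
    IntegrableOn (fun ζ : ℂ => ‖f ζ‖ ^ 2 * ‖ζ‖ ^ (2 * r - 4)) HP := by
  refine ⟨Measurable.aestronglyMeasurable (by fun_prop), ?_⟩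
  rw [hasFiniteIntegral_iff_ofReal (Eventually.of_forall fun ζ => by positivity)]
  exact lt_top_iff_ne_top.2 hen

/-- The kernel of the Laplace formula. -/
noncomputable def Phi (f : ℂ → ℂ) (s : ℂ) (p : ℝ × ℂ) : ℂ :=
  (p.1 : ℂ) ^ (2 + s - 1) * Complex.exp (-(conj p.2 * p.1)) * (f p.2 / p.2 ^ 2)

theorem Phi_integrable {f : ℂ → ℂ} (hf : Measurable f) (hen : en (3 / 4) f ≠ ⊤) {s : ℂ}
    (hs : -1 < s.re) :
    Integrable (Phi f s) ((volume.restrict (Ioi (0 : ℝ))).prod (volume.restrict HP)) := by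
  have hmeas : Measurable (Phi f s) := by
    unfold Phi
    fun_prop
  rw [integrable_prod_iff' hmeas.aestronglyMeasurable]
  have hpos : ∀ ζ ∈ HP, 0 < ζ.re := by
    intro ζ hζ
    have : (1 / 2 : ℝ) < ζ.re := hζ
    linarith
  have hnorm : ∀ ζ : ℂ, ∀ lam ∈ Ioi (0 : ℝ), ‖Phi f s (lam, ζ)‖ =
      lam ^ ((2 + s.re) - 1) * Real.exp (-(ζ.re * lam)) * (‖f ζ‖ / ‖ζ‖ ^ 2) := by
    intro ζ lam hlam
    unfold Phi
    rw [norm_mul, norm_mul, Complex.norm_cpow_eq_rpow_re_of_pos hlam, Complex.norm_exp,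
      norm_div, norm_pow]
    simp
  constructor
  · filter_upwards [ae_restrict_mem measurableSet_HP] with ζ hζ
    have h1 : IntegrableOn (fun lam : ℝ => lam ^ ((2 + s.re) - 1) * Real.exp (-(ζ.re) * lam) *
        (‖f ζ‖ / ‖ζ‖ ^ 2)) (Ioi 0) := by
      have := integrableOn_rpow_mul_exp_neg_mul_rpow (s := (2 + s.re) - 1) (p := 1) (b := ζ.re)
        (by linarith) one_pos (hpos ζ hζ)
      simp only [Real.rpow_one] at this
      exact this.mul_const _
    refine Integrable.mono' h1 ?_ ?_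
    · exact (hmeas.comp (measurable_id.prodMk measurable_const)).aestronglyMeasurable
    · filter_upwards [ae_restrict_mem measurableSet_Ioi] with lam hlam
      rw [hnorm ζ lam hlam]
      simp
  · have h2 : ∀ ζ ∈ HP, ∫ lam in Ioi (0 : ℝ), ‖Phi f s (lam, ζ)‖ =
        (1 / ζ.re) ^ (2 + s.re) * Real.Gamma (2 + s.re) * (‖f ζ‖ / ‖ζ‖ ^ 2) := by
      intro ζ hζ
      rw [setIntegral_congr_fun measurableSet_Ioi (hnorm ζ), integral_mul_const,
        Real.integral_rpow_mul_exp_neg_mul_Ioi (by linarith) (hpos ζ hζ)]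
    have h3 : IntegrableOn (fun ζ : ℂ => Real.Gamma (2 + s.re) *
        (‖f ζ‖ ^ 2 * ‖ζ‖ ^ (2 * (3 / 4 : ℝ) - 4) +
        ‖ζ‖ ^ (-(3 / 2 : ℝ)) * (1 / ζ.re) ^ (2 * (2 + s.re)))) HP := by
      refine Integrable.const_mul ?_ _
      exact (en_integrable hf hen).add (integrableOn_HP_rpow (by norm_num) (by linarith))
    refine Integrable.mono' h3 ?_ ?_
    · have : StronglyMeasurable (fun ζ : ℂ => ∫ lam in Ioi (0 : ℝ), ‖Phi f s (lam, ζ)‖) :=
        (hmeas.norm.stronglyMeasurable).integral_prod_left'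
      exact this.aestronglyMeasurable
    · filter_upwards [ae_restrict_mem measurableSet_HP] with ζ hζ
      have hζ0 : 0 < ‖ζ‖ := norm_pos_iff.2 (ne_zero_of_HP hζ)
      have hre := hpos ζ hζ
      have hG : 0 < Real.Gamma (2 + s.re) := Real.Gamma_pos_of_pos (by linarith)
      rw [h2 ζ hζ, Real.norm_of_nonneg (by positivity)]
      have h4 : (1 / ζ.re) ^ (2 + s.re) * Real.Gamma (2 + s.re) * (‖f ζ‖ / ‖ζ‖ ^ 2) =
          Real.Gamma (2 + s.re) * ((‖f ζ‖ * ‖ζ‖ ^ (-(5 / 4) : ℝ)) *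
            (‖ζ‖ ^ (-(3 / 4) : ℝ) * (1 / ζ.re) ^ (2 + s.re))) := by
        have h5 : ‖ζ‖ ^ (-(5 / 4) : ℝ) * ‖ζ‖ ^ (-(3 / 4) : ℝ) = (‖ζ‖ ^ 2)⁻¹ := by
          rw [← Real.rpow_add hζ0, ← Real.rpow_natCast, ← Real.rpow_neg hζ0.le]
          norm_num
        calc _ = Real.Gamma (2 + s.re) * (‖f ζ‖ * (‖ζ‖ ^ 2)⁻¹ * (1 / ζ.re) ^ (2 + s.re)) := by ring
          _ = _ := by rw [← h5]; ring
      rw [h4]
      refine mul_le_mul_of_nonneg_left ?_ hG.le
      have h6 : (‖f ζ‖ * ‖ζ‖ ^ (-(5 / 4) : ℝ)) ^ 2 = ‖f ζ‖ ^ 2 * ‖ζ‖ ^ (2 * (3 / 4 : ℝ) - 4) := by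
        rw [mul_pow, ← Real.rpow_natCast (_ ^ _), ← Real.rpow_mul hζ0.le]
        norm_num
      have h7 : (‖ζ‖ ^ (-(3 / 4) : ℝ) * (1 / ζ.re) ^ (2 + s.re)) ^ 2 =
          ‖ζ‖ ^ (-(3 / 2 : ℝ)) * (1 / ζ.re) ^ (2 * (2 + s.re)) := by
        rw [mul_pow, ← Real.rpow_natCast (‖ζ‖ ^ _), ← Real.rpow_mul hζ0.le,
          ← Real.rpow_natCast ((1 / ζ.re) ^ _), ← Real.rpow_mul (by positivity)]
        norm_num
        left
        congr 1
        ring
      rw [← h6, ← h7]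
      nlinarith [sq_nonneg (‖f ζ‖ * ‖ζ‖ ^ (-(5 / 4) : ℝ) -
        ‖ζ‖ ^ (-(3 / 4) : ℝ) * (1 / ζ.re) ^ (2 + s.re)),
        sq_nonneg (‖f ζ‖ * ‖ζ‖ ^ (-(5 / 4) : ℝ)),
        sq_nonneg (‖ζ‖ ^ (-(3 / 4) : ℝ) * (1 / ζ.re) ^ (2 + s.re))]

theorem integral_exp_half {lam : ℝ} (hlam : 0 < lam) :
    ∫ c in Ioi (1 / 2 : ℝ), Real.exp (-(2 * c * lam)) = Real.exp (-lam) / (2 * lam) := by
  have h := integral_exp_mul_Ioi (a := -(2 * lam)) (by linarith) (1 / 2)
  have h2 : ∀ c : ℝ, Real.exp (-(2 * c * lam)) = Real.exp (-(2 * lam) * c) := by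
    intro c; congr 1; ring
  simp only [h2]
  rw [h]
  have h3 : -(2 * lam) * (1 / 2) = -lam := by ring
  rw [h3]
  field_simp

/-- The Laplace formula on a slice. -/
theorem laplace {f : ℂ → ℂ} (hf : Nice f) (hen : en (3 / 4) f ≠ ⊤) {s : ℂ} (hs : -1 < s.re) :
    IntegrableOn (fun ζ => (1 / conj ζ) ^ (2 + s) * (f ζ / ζ ^ 2)) HP ∧
    IntegrableOn (fun lam : ℝ => (lam : ℂ) ^ (2 + s - 1) *
      (((Real.exp (-lam) / (2 * lam) : ℝ) : ℂ) * vl f lam 1)) (Ioi 0) ∧
    Complex.Gamma (2 + s) * ∫ ζ in HP, (1 / conj ζ) ^ (2 + s) * (f ζ / ζ ^ 2) =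
      ∫ lam in Ioi (0 : ℝ), (lam : ℂ) ^ (2 + s - 1) *
        (((Real.exp (-lam) / (2 * lam) : ℝ) : ℂ) * vl f lam 1) := by
  have hPhi := Phi_integrable hf.meas hen hs
  have hpos : ∀ ζ ∈ HP, 0 < ζ.re := by
    intro ζ hζ
    have : (1 / 2 : ℝ) < ζ.re := hζ
    linarith
  have hre2 : 0 < (2 + s).re := by simp; linarith
  have hG : Complex.Gamma (2 + s) ≠ 0 := Complex.Gamma_ne_zero_of_re_pos hre2
  -- integration over `lam` first
  have h1 : ∀ ζ ∈ HP, ∫ lam in Ioi (0 : ℝ), Phi f s (lam, ζ) =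
      Complex.Gamma (2 + s) * ((1 / conj ζ) ^ (2 + s) * (f ζ / ζ ^ 2)) := by
    intro ζ hζ
    unfold Phi
    simp only
    rw [integral_mul_const, gamma_integral hre2 (by simpa using hpos ζ hζ)]
    ring
  -- integration over `ζ` first
  have h2 : ∀ᵐ lam ∂(volume.restrict (Ioi (0 : ℝ))), ∫ ζ in HP, Phi f s (lam, ζ) =
      (lam : ℂ) ^ (2 + s - 1) * (((Real.exp (-lam) / (2 * lam) : ℝ) : ℂ) * vl f lam 1) := by
    filter_upwards [hPhi.prod_right_ae, ae_restrict_mem measurableSet_Ioi] with lam hint hlam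
    have hlam' : 0 < lam := hlam
    rw [integral_HP hint]
    have h3 : ∀ c ∈ Ioi (1 / 2 : ℝ), ∫ u : ℝ, Phi f s (lam, ln c u) =
        ((Real.exp (-(2 * c * lam)) : ℝ) : ℂ) * ((lam : ℂ) ^ (2 + s - 1) * vl f lam 1) := by
      intro c hc
      rw [vl_eq hf lam (c := 1) (c' := c) (by norm_num) hc, vl, ← integral_const_mul,
        ← integral_const_mul]
      congr 1
      ext u
      unfold Phi gl
      have h4 : Complex.exp (-(conj (ln c u) * lam)) =
          ((Real.exp (-(2 * c * lam)) : ℝ) : ℂ) * Complex.exp (lam * ln c u) := by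
        rw [Complex.ofReal_exp, ← Complex.exp_add]
        congr 1
        simp only [ln, map_add, map_mul, Complex.conj_ofReal, Complex.conj_I]
        push_cast
        ring
      simp only
      rw [h4]
      ring
    rw [setIntegral_congr_fun measurableSet_Ioi h3, integral_mul_const]
    have h5 : ∫ c in Ioi (1 / 2 : ℝ), ((Real.exp (-(2 * c * lam)) : ℝ) : ℂ) =
        ((Real.exp (-lam) / (2 * lam) : ℝ) : ℂ) := by
      rw [← integral_exp_half hlam']
      exact integral_ofReal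
    rw [h5]
    ring
  refine ⟨?_, ?_, ?_⟩
  · have h6 : IntegrableOn (fun ζ => ∫ lam in Ioi (0 : ℝ), Phi f s (lam, ζ)) HP :=
      hPhi.integral_prod_right
    have h7 : IntegrableOn (fun ζ => Complex.Gamma (2 + s) *
        ((1 / conj ζ) ^ (2 + s) * (f ζ / ζ ^ 2))) HP := h6.congr_fun h1 measurableSet_HP
    have h8 : IntegrableOn (fun ζ => (Complex.Gamma (2 + s))⁻¹ * (Complex.Gamma (2 + s) *
        ((1 / conj ζ) ^ (2 + s) * (f ζ / ζ ^ 2)))) HP := h7.const_mul _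
    refine h8.congr_fun (fun ζ _ => ?_) measurableSet_HP
    simp only
    rw [inv_mul_cancel_left₀ hG]
  · have h6 : Integrable (fun lam => ∫ ζ in HP, Phi f s (lam, ζ)) (volume.restrict (Ioi (0 : ℝ))) :=
      hPhi.integral_prod_left
    exact h6.congr h2
  · rw [← integral_const_mul, ← setIntegral_congr_fun measurableSet_HP h1, ← integral_congr_ae h2]
    exact (integral_integral_swap (f := fun lam ζ => Phi f s (lam, ζ)) hPhi).symm

end Pool.Agent.Worm.Br
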