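import Pool.Agent.Worm.Slices
import Pool.Agent.Worm.Br.Slice

/-!
# The discs `D(t)` in the coordinate `ζ = e^{it} e^{-w}` (MP_3c4b73_an)
-/

open MeasureTheory Set Filter Metric
open scoped Real ENNReal Topology ComplexConjugate

namespace Pool.Agent.Worm.Br

/-- The disc `D(t)` for `η = 0`. -/
abbrev D0 (t : ℝ) : Set ℂ := disc (fun _ => 0) t

/-- The coordinate `ζ ↦ i t - log ζ`. -/
noncomputable def ph (t : ℝ) (ζ : ℂ) : ℂ := t * Complex.I - Complex.log ζ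

theorem mem_D0_iff {t : ℝ} {w : ℂ} :
    w ∈ D0 t ↔ |w.im - t| < π / 2 ∧ Complex.exp (t * Complex.I - w) ∈ HP := by
  have h1 : (Complex.exp (t * Complex.I - w)).re = Real.exp (-w.re) * Real.cos (w.im - t) := by
    rw [Complex.exp_re]
    simp only [Complex.sub_re, Complex.sub_im, Complex.mul_re, Complex.mul_im, Complex.ofReal_re,
      Complex.ofReal_im, Complex.I_re, Complex.I_im]
    rw [← Real.cos_neg (w.im - t)]
    congr 2 <;> ring
  have h2 : Complex.exp (t * Complex.I - w) ∈ HP ↔ Real.exp w.re < 2 * Real.cos (w.im - t) := by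
    show 1 / 2 < (Complex.exp (t * Complex.I - w)).re ↔ _
    rw [h1, Real.exp_neg]
    have h3 := Real.exp_pos w.re
    rw [inv_mul_eq_div, lt_div_iff₀ h3]
    constructor <;> intro h <;> linarith
  rw [h2]
  simp [disc]

theorem re_pos_of_HP {ζ : ℂ} (h : ζ ∈ HP) : 0 < ζ.re := by
  have : (1 / 2 : ℝ) < ζ.re := h
  linarith

theorem exp_sub_ph {t : ℝ} {ζ : ℂ} (h : ζ ≠ 0) :
    Complex.exp (t * Complex.I - ph t ζ) = ζ := by
  unfold ph
  rw [sub_sub_cancel, Complex.exp_log h]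

theorem ph_im (t : ℝ) (ζ : ℂ) : (ph t ζ).im = t - ζ.arg := by
  simp [ph, Complex.log_im]

theorem ph_re (t : ℝ) (ζ : ℂ) : (ph t ζ).re = -Real.log ‖ζ‖ := by
  simp [ph, Complex.log_re]

theorem ph_mem {t : ℝ} {ζ : ℂ} (h : ζ ∈ HP) : ph t ζ ∈ D0 t := by
  rw [mem_D0_iff, exp_sub_ph (ne_zero_of_HP h), ph_im]
  refine ⟨?_, h⟩
  have h1 : |ζ.arg| < π / 2 := Complex.abs_arg_lt_pi_div_two_iff.2 (Or.inl (re_pos_of_HP h))
  rw [show t - ζ.arg - t = -ζ.arg by ring, abs_neg]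
  exact h1

theorem ph_exp {t : ℝ} {w : ℂ} (h : w ∈ D0 t) : ph t (Complex.exp (t * Complex.I - w)) = w := by
  have h1 := (mem_D0_iff.1 h).1
  unfold ph
  rw [Complex.log_exp]
  · ring
  · simp only [Complex.sub_im, Complex.mul_im, Complex.ofReal_re, Complex.ofReal_im,
      Complex.I_re, Complex.I_im]
    have := abs_lt.1 h1
    linarith [Real.pi_pos]
  · simp only [Complex.sub_im, Complex.mul_im, Complex.ofReal_re, Complex.ofReal_im,
      Complex.I_re, Complex.I_im]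
    have := abs_lt.1 h1
    linarith [Real.pi_pos]

theorem image_ph (t : ℝ) : ph t '' HP = D0 t := by
  ext w
  constructor
  · rintro ⟨ζ, hζ, rfl⟩
    exact ph_mem hζ
  · intro hw
    exact ⟨_, (mem_D0_iff.1 hw).2, ph_exp hw⟩

theorem injOn_ph (t : ℝ) : InjOn (ph t) HP := by
  intro ζ hζ ζ' hζ' h
  rw [← exp_sub_ph (t := t) (ne_zero_of_HP hζ), h, exp_sub_ph (ne_zero_of_HP hζ')]

theorem isOpen_D0 (t : ℝ) : IsOpen (D0 t) := by
  have : D0 t = {w : ℂ | |w.im - t| < π / 2} ∩ {w | Real.exp w.re < 2 * Real.cos (w.im - t)} := by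
    ext w
    simp [disc]
  rw [this]
  exact (isOpen_lt (by fun_prop) continuous_const).inter (isOpen_lt (by fun_prop) (by fun_prop))

theorem measurableSet_D0 (t : ℝ) : MeasurableSet (D0 t) := (isOpen_D0 t).measurableSet

theorem hasDerivAt_ph {t : ℝ} {ζ : ℂ} (h : ζ ∈ HP) : HasDerivAt (ph t) (-ζ⁻¹) ζ := by
  unfold ph
  have h1 := (Complex.hasDerivAt_log (Complex.mem_slitPlane_iff.2 (Or.inl (re_pos_of_HP h))))
  simpa using h1.const_sub (t * Complex.I)

theorem norm_exp_ph {t : ℝ} {ζ : ℂ} (h : ζ ∈ HP) : Real.exp (ph t ζ).re = ‖ζ‖⁻¹ := by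
  rw [ph_re, Real.exp_neg, Real.exp_log (norm_pos_iff.2 (ne_zero_of_HP h))]

theorem measurable_ph (t : ℝ) : Measurable (ph t) := by
  unfold ph
  fun_prop

theorem measurable_areaDensity :
    Measurable (fun w : ℂ => ENNReal.ofReal (Real.exp (2 * w.re))) := by fun_prop

/-- Change of variables in `D(t)`. -/
theorem lintegral_D0 (t : ℝ) {g : ℂ → ℝ≥0∞} (hg : Measurable g) :
    ∫⁻ w in D0 t, g w ∂areaM = ∫⁻ ζ in HP, ENNReal.ofReal (‖ζ‖ ^ (-4 : ℝ)) * g (ph t ζ) := by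
  have hder : ∀ ζ ∈ HP, HasFDerivWithinAt (ph t)
      ((ContinuousLinearMap.smulRight (1 : ℂ →L[ℂ] ℂ) (-ζ⁻¹)).restrictScalars ℝ :
      ℂ →L[ℝ] ℂ) HP ζ := fun ζ hζ =>
    ((hasDerivAt_ph hζ).hasFDerivAt.restrictScalars ℝ).hasFDerivWithinAt
  rw [areaM, restrict_withDensity (measurableSet_D0 t),
    lintegral_withDensity_eq_lintegral_mul _ measurable_areaDensity hg, ← image_ph,
    lintegral_image_eq_lintegral_abs_det_fderiv_mul volume measurableSet_HP hder (injOn_ph t)]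
  refine setLIntegral_congr_fun measurableSet_HP fun ζ hζ => ?_
  simp only [Pi.mul_apply]
  have h0 : 0 < ‖ζ‖ := norm_pos_iff.2 (ne_zero_of_HP hζ)
  rw [Pool.Agent.H62.abs_det_mul_complex, ← mul_assoc, ← ENNReal.ofReal_mul (by positivity),
    two_mul, Real.exp_add, norm_exp_ph hζ, norm_neg, norm_inv]
  congr 2
  rw [show (-4 : ℝ) = -((4 : ℕ) : ℝ) by norm_num, Real.rpow_neg h0.le, Real.rpow_natCast]
  field_simp

theorem areaM_eq : areaM = volume.withDensity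
    (fun w => ((Real.toNNReal (Real.exp (2 * w.re)) : NNReal) : ℝ≥0∞)) := rfl

theorem integral_D0 (t : ℝ) (g : ℂ → ℂ) :
    ∫ w in D0 t, g w ∂areaM = ∫ ζ in HP, ((‖ζ‖ ^ (-4 : ℝ) : ℝ) : ℂ) * g (ph t ζ) := by
  have hder : ∀ ζ ∈ HP, HasFDerivWithinAt (ph t)
      ((ContinuousLinearMap.smulRight (1 : ℂ →L[ℂ] ℂ) (-ζ⁻¹)).restrictScalars ℝ :
      ℂ →L[ℝ] ℂ) HP ζ := fun ζ hζ =>
    ((hasDerivAt_ph hζ).hasFDerivAt.restrictScalars ℝ).hasFDerivWithinAt
  rw [areaM_eq, restrict_withDensity (measurableSet_D0 t),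
    integral_withDensity_eq_integral_smul (by fun_prop), ← image_ph,
    integral_image_eq_integral_abs_det_fderiv_smul volume measurableSet_HP hder (injOn_ph t)]
  refine setIntegral_congr_fun measurableSet_HP fun ζ hζ => ?_
  have h0 : 0 < ‖ζ‖ := norm_pos_iff.2 (ne_zero_of_HP hζ)
  rw [Pool.Agent.H62.abs_det_mul_complex, NNReal.smul_def, Real.coe_toNNReal _ (Real.exp_pos _).le,
    smul_smul, Complex.real_smul, two_mul, Real.exp_add, norm_exp_ph hζ, norm_neg, norm_inv]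
  congr 2
  rw [show (-4 : ℝ) = -((4 : ℕ) : ℝ) by norm_num, Real.rpow_neg h0.le, Real.rpow_natCast]
  field_simp

theorem integrableOn_D0_iff (t : ℝ) (g : ℂ → ℂ) :
    IntegrableOn g (D0 t) areaM ↔
      IntegrableOn (fun ζ => ((‖ζ‖ ^ (-4 : ℝ) : ℝ) : ℂ) * g (ph t ζ)) HP := by
  have hder : ∀ ζ ∈ HP, HasFDerivWithinAt (ph t)
      ((ContinuousLinearMap.smulRight (1 : ℂ →L[ℂ] ℂ) (-ζ⁻¹)).restrictScalars ℝ :
      ℂ →L[ℝ] ℂ) HP ζ := fun ζ hζ =>
    ((hasDerivAt_ph hζ).hasFDerivAt.restrictScalars ℝ).hasFDerivWithinAt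
  rw [IntegrableOn, areaM_eq, restrict_withDensity (measurableSet_D0 t),
    integrable_withDensity_iff_integrable_smul (by fun_prop), ← image_ph]
  have := integrableOn_image_iff_integrableOn_abs_det_fderiv_smul volume measurableSet_HP hder
    (injOn_ph t) (fun x => Real.toNNReal (Real.exp (2 * x.re)) • g x)
  rw [IntegrableOn] at this
  rw [this]
  refine integrableOn_congr_fun (fun ζ hζ => ?_) measurableSet_HP
  have h0 : 0 < ‖ζ‖ := norm_pos_iff.2 (ne_zero_of_HP hζ)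
  rw [Pool.Agent.H62.abs_det_mul_complex, NNReal.smul_def, Real.coe_toNNReal _ (Real.exp_pos _).le,
    smul_smul, Complex.real_smul, two_mul, Real.exp_add, norm_exp_ph hζ, norm_neg, norm_inv]
  congr 2
  rw [show (-4 : ℝ) = -((4 : ℕ) : ℝ) by norm_num, Real.rpow_neg h0.le, Real.rpow_natCast]
  field_simp

end Pool.Agent.Worm.Br
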