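import Pool.Agent.Worm.Br.Psi

/-!
# The bounds of the Borel transform (MP_3c4b73_an)
-/

open MeasureTheory Set Filter Metric
open scoped Real ENNReal Topology ComplexConjugate

namespace Pool.Agent.Worm.Br

theorem Nice.sub {f g : ℂ → ℂ} (hf : Nice f) (hg : Nice g) : Nice (fun ζ => f ζ - g ζ) := by
  refine ⟨hf.meas.sub hg.meas, hf.hol.sub hg.hol, fun c0 hc0 => ?_⟩
  obtain ⟨K, hK⟩ := hf.bd c0 hc0
  obtain ⟨L, hL⟩ := hg.bd c0 hc0
  refine ⟨K + L, fun ζ hζ => ?_⟩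
  calc ‖f ζ - g ζ‖ ≤ ‖f ζ‖ + ‖g ζ‖ := norm_sub_le _ _
    _ ≤ K * ‖ζ‖ ^ (1 / 4 : ℝ) + L * ‖ζ‖ ^ (1 / 4 : ℝ) := add_le_add (hK ζ hζ) (hL ζ hζ)
    _ = _ := by ring

theorem Nice.const_mul {f : ℂ → ℂ} (hf : Nice f) (a : ℂ) : Nice (fun ζ => a * f ζ) := by
  refine ⟨hf.meas.const_mul a, hf.hol.const_mul a, fun c0 hc0 => ?_⟩
  obtain ⟨K, hK⟩ := hf.bd c0 hc0
  refine ⟨‖a‖ * K, fun ζ hζ => ?_⟩
  rw [norm_mul, mul_assoc]
  exact mul_le_mul_of_nonneg_left (hK ζ hζ) (norm_nonneg _)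

theorem nice_zero : Nice (fun _ => 0) :=
  ⟨measurable_const, differentiableOn_const _, fun _ _ => ⟨0, fun ζ _ => by simp⟩⟩

theorem Nice.add {f g : ℂ → ℂ} (hf : Nice f) (hg : Nice g) : Nice (fun ζ => f ζ + g ζ) := by
  have := hf.sub (hg.const_mul (-1))
  simpa using this

theorem Nice.sum {N : ℕ} {f : ℕ → ℂ → ℂ} (hf : ∀ j, Nice (f j)) :
    Nice (fun ζ => ∑ j ∈ Finset.range N, f j ζ) := by
  induction N with
  | zero => simpa using nice_zero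
  | succ n ih =>
    simp only [Finset.sum_range_succ]
    exact ih.add (hf n)

/-- The exponential `e^{jw}` on a slice. -/
noncomputable def pw (t : ℝ) (j : ℕ) (ζ : ℂ) : ℂ := Complex.exp (j * ph t ζ)

theorem norm_pw {t : ℝ} {j : ℕ} {ζ : ℂ} (h : ζ ≠ 0) : ‖pw t j ζ‖ = (‖ζ‖⁻¹) ^ j := by
  unfold pw
  rw [Complex.norm_exp]
  have h1 : ((j : ℂ) * ph t ζ).re = j * (-Real.log ‖ζ‖) := by
    rw [← ph_re t ζ]
    simp
  rw [h1, Real.exp_nat_mul, Real.exp_neg, Real.exp_log (norm_pos_iff.2 h)]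

theorem pw_eq {t : ℝ} {j : ℕ} {ζ : ℂ} (h : ζ ≠ 0) :
    pw t j ζ = Complex.exp (j * (t * Complex.I)) / ζ ^ j := by
  unfold pw ph
  rw [mul_sub, Complex.exp_sub, Complex.exp_nat_mul (Complex.log ζ), Complex.exp_log h]

theorem nice_pw (t : ℝ) (j : ℕ) : Nice (pw t j) := by
  refine ⟨?_, ?_, fun c0 hc0 => ?_⟩
  · exact Complex.measurable_exp.comp ((measurable_ph t).const_mul _)
  · exact Complex.differentiable_exp.comp_differentiableOn ((differentiableOn_ph t).const_mul _)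
  · refine ⟨2 ^ j * (1 / 2 : ℝ) ^ (-(1 / 4 : ℝ)), fun ζ hζ => ?_⟩
    have h1 : (1 / 2 : ℝ) ≤ ‖ζ‖ := by
      have := Complex.abs_re_le_norm ζ
      have h2 := le_abs_self ζ.re
      linarith
    have h0 : ζ ≠ 0 := norm_pos_iff.1 (by linarith)
    rw [norm_pw h0]
    have h3 : ‖ζ‖⁻¹ ^ j ≤ 2 ^ j := by
      refine pow_le_pow_left₀ (by positivity) ?_ j
      rw [inv_le_comm₀ (by linarith) (by norm_num)]
      linarith
    have h4 : (1 / 2 : ℝ) ^ (1 / 4 : ℝ) ≤ ‖ζ‖ ^ (1 / 4 : ℝ) :=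
      Real.rpow_le_rpow (by norm_num) h1 (by norm_num)
    have h5 : (1 / 2 : ℝ) ^ (-(1 / 4 : ℝ)) * (1 / 2 : ℝ) ^ (1 / 4 : ℝ) = 1 := by
      rw [← Real.rpow_add (by norm_num)]; norm_num
    calc ‖ζ‖⁻¹ ^ j ≤ 2 ^ j := h3
      _ = 2 ^ j * ((1 / 2 : ℝ) ^ (-(1 / 4 : ℝ)) * (1 / 2 : ℝ) ^ (1 / 4 : ℝ)) := by rw [h5, mul_one]
      _ ≤ 2 ^ j * ((1 / 2 : ℝ) ^ (-(1 / 4 : ℝ)) * ‖ζ‖ ^ (1 / 4 : ℝ)) := by gcongr
      _ = _ := by ring

/-- The coefficient of the transform of `e^{jw}`. -/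
noncomputable def kap (j : ℕ) : ℂ :=
  1 / (2 * π) * ∫ v : ℝ, 1 / (ln 1 v) ^ (j + 2) * Complex.exp (ln 1 v)

theorem vl_pw {t lam : ℝ} (hlam : 0 < lam) (hlam1 : lam ≤ 1) (j : ℕ) :
    vl (pw t j) lam 1 = Complex.exp (j * (t * Complex.I)) * lam ^ (j + 1) * (2 * π * kap j) := by
  have hlam' : (lam : ℂ) ≠ 0 := by exact_mod_cast hlam.ne'
  have h1 : (1 : ℝ) / 2 < 1 / lam := by
    rw [lt_div_iff₀ hlam]; linarith
  rw [vl_eq (nice_pw t j) lam (by norm_num : (1 / 2 : ℝ) < 1) h1, vl_scale _ hlam]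
  have h2 : ∀ v : ℝ, pw t j (ln 1 v / lam) / (ln 1 v) ^ 2 * Complex.exp (ln 1 v) =
      (Complex.exp (j * (t * Complex.I)) * lam ^ j) *
        (1 / (ln 1 v) ^ (j + 2) * Complex.exp (ln 1 v)) := by
    intro v
    have h0 := ln_ne_zero one_pos v
    rw [pw_eq (div_ne_zero h0 hlam'), div_pow]
    generalize ln 1 v = z at h0 ⊢
    field_simp
    ring
  simp only [h2]
  rw [integral_const_mul]
  unfold kap
  have hpi : (π : ℂ) ≠ 0 := by exact_mod_cast Real.pi_ne_zero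
  field_simp
  ring

theorem vl_sub {f g : ℂ → ℂ} (hf : Nice f) (hg : Nice g) (lam : ℝ) :
    vl (fun ζ => f ζ - g ζ) lam 1 = vl f lam 1 - vl g lam 1 := by
  unfold vl
  rw [← integral_sub (gl_integrable hf lam (by norm_num)) (gl_integrable hg lam (by norm_num))]
  congr 1
  ext u
  unfold gl
  ring

theorem vl_const_mul (f : ℂ → ℂ) (a : ℂ) (lam : ℝ) :
    vl (fun ζ => a * f ζ) lam 1 = a * vl f lam 1 := by
  unfold vl
  rw [← integral_const_mul]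
  congr 1
  ext u
  unfold gl
  ring

theorem vl_sum {N : ℕ} {f : ℕ → ℂ → ℂ} (hf : ∀ j, Nice (f j)) (lam : ℝ) :
    vl (fun ζ => ∑ j ∈ Finset.range N, f j ζ) lam 1 = ∑ j ∈ Finset.range N, vl (f j) lam 1 := by
  unfold vl
  rw [← integral_finsetSum _ (fun j _ => gl_integrable (hf j) lam (by norm_num))]
  congr 1
  ext u
  unfold gl
  rw [Finset.sum_div, Finset.sum_mul]

/-- The remainder of the expansion. -/
noncomputable def rem (F : ℂ → ℂ) (c : ℕ → ℂ) (N : ℕ) (w : ℂ) : ℂ :=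
  F w - ∑ j ∈ Finset.range N, c j * Complex.exp (j * w)

theorem rem_fs (F : ℂ → ℂ) (c : ℕ → ℂ) (N : ℕ) (t : ℝ) :
    fs (rem F c N) t = fun ζ => fs F t ζ - ∑ j ∈ Finset.range N, c j * pw t j ζ := by
  ext ζ
  rfl

theorem nice_rem {b : ℝ} {F : ℂ → ℂ} (h : Ok b F) {t : ℝ} (ht : |t| < b) (c : ℕ → ℂ) (N : ℕ) :
    Nice (fs (rem F c N) t) := by
  rw [rem_fs]
  exact (nice_fs h ht).sub (Nice.sum fun j => (nice_pw t j).const_mul (c j))

theorem Psi_sub {b : ℝ} {F : ℂ → ℂ} (h : Ok b F) {t l : ℝ} (ht : |t| < b) (hl : l ≤ 0)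
    (c : ℕ → ℂ) (N : ℕ) :
    Psi F (l + t * Complex.I) - ∑ j ∈ Finset.range N, (c j * kap j) *
        Complex.exp ((j + 1) * (l + t * Complex.I)) =
      Complex.exp (t * Complex.I) / (2 * π) * vl (fs (rem F c N) t) (Real.exp l) 1 := by
  have him : ((l : ℂ) + t * Complex.I).im = t := by simp
  have hre : ((l : ℂ) + t * Complex.I).re = l := by simp
  have hlam := Real.exp_pos l
  have hlam1 : Real.exp l ≤ 1 := Real.exp_le_one_iff.2 hl
  rw [rem_fs, vl_sub (nice_fs h ht) (Nice.sum fun j => (nice_pw t j).const_mul (c j)),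
    vl_sum (fun j => (nice_pw t j).const_mul (c j))]
  unfold Psi
  rw [him, hre, mul_sub, Finset.mul_sum]
  congr 1
  refine Finset.sum_congr rfl fun j _ => ?_
  rw [vl_const_mul, vl_pw hlam hlam1]
  have hpi : (π : ℂ) ≠ 0 := by exact_mod_cast Real.pi_ne_zero
  have h1 : Complex.exp ((j + 1) * (l + t * Complex.I)) =
      Complex.exp (t * Complex.I) * (Complex.exp (j * (t * Complex.I)) *
        ((Real.exp l : ℝ) : ℂ) ^ (j + 1)) := by
    rw [Complex.ofReal_exp, ← Complex.exp_nat_mul, ← Complex.exp_add, ← Complex.exp_add]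
    congr 1
    push_cast
    ring
  rw [h1]
  field_simp

theorem norm_Psi_sub {b : ℝ} {F : ℂ → ℂ} (h : Ok b F) {t l : ℝ} (ht : |t| < b) (hl : l ≤ 0)
    (c : ℕ → ℂ) (N : ℕ) :
    ‖Psi F (l + t * Complex.I) - ∑ j ∈ Finset.range N, (c j * kap j) *
        Complex.exp ((j + 1) * (l + t * Complex.I))‖ ≤
      ‖vl (fs (rem F c N) t) (Real.exp l) 1‖ := by
  rw [Psi_sub h ht hl c N, norm_mul, norm_div, Complex.norm_exp_ofReal_mul_I]
  have h1 : ‖(2 * π : ℂ)‖ = 2 * π := by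
    rw [norm_mul, Complex.norm_real, Real.norm_of_nonneg Real.pi_pos.le]
    simp
  rw [h1]
  have h2 : (1 : ℝ) / (2 * π) ≤ 1 := by
    rw [div_le_one (by positivity)]
    linarith [Real.pi_gt_three]
  exact mul_le_of_le_one_left (norm_nonneg _) h2

/-- The energy as an integral over `D(t)`. -/
theorem en_eq {G : ℂ → ℂ} (hG : Measurable G) (r t : ℝ) :
    en r (fs G t) = ∫⁻ w in D0 t, ‖G w‖ₑ ^ 2 * ENNReal.ofReal (Real.exp (-2 * r * w.re)) ∂areaM := by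
  rw [lintegral_D0 t (by fun_prop), en]
  refine setLIntegral_congr_fun measurableSet_HP fun ζ hζ => ?_
  have h0 : 0 < ‖ζ‖ := norm_pos_iff.2 (ne_zero_of_HP hζ)
  simp only [fs]
  have h1 : Real.exp (-2 * r * (ph t ζ).re) = ‖ζ‖ ^ (2 * r) := by
    rw [ph_re, Real.rpow_def_of_pos h0]
    congr 1
    ring
  rw [h1, ← ofReal_norm, ← ENNReal.ofReal_pow (norm_nonneg _), ← ENNReal.ofReal_mul (by positivity),
    ← ENNReal.ofReal_mul (by positivity)]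
  congr 1
  rw [show 2 * r - 4 = -4 + 2 * r by ring, Real.rpow_add h0]
  ring

theorem measurable_en {G : ℂ → ℂ} (hG : Measurable G) (r : ℝ) :
    Measurable (fun t => en r (fs G t)) := by
  unfold en fs
  refine Measurable.lintegral_prod_right' (f := fun p : ℝ × ℂ =>
    ENNReal.ofReal (‖G (ph p.1 p.2)‖ ^ 2 * ‖p.2‖ ^ (2 * r - 4))) ?_
  have h1 : Measurable (fun p : ℝ × ℂ => ph p.1 p.2) := by
    unfold ph
    fun_prop
  have h2 := hG.comp h1
  exact ((h2.norm.pow_const 2).mul (measurable_snd.norm.pow_const _)).ennreal_ofReal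

theorem lintegral_en {b : ℝ} {G : ℂ → ℂ} (hG : Measurable G) (r : ℝ) :
    ∫⁻ w, ‖G w‖ₑ ^ 2 * ENNReal.ofReal (Real.exp (-2 * r * w.re)) ∂(mu0 b) =
      ∫⁻ t in Ioo (-b) b, ENNReal.ofReal (Real.exp t) * en r (fs G t) := by
  rw [lintegral_mu0 (by fun_prop)]
  refine lintegral_congr fun t => ?_
  rw [en_eq hG]

theorem lintegral_en_ne_top {b : ℝ} {G : ℂ → ℂ} (hG : Measurable G) {r : ℝ}
    (h : ∫⁻ w, ‖G w‖ₑ ^ 2 * ENNReal.ofReal (Real.exp (-2 * r * w.re)) ∂(mu0 b) ≠ ⊤) :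
    ∫⁻ t in Ioo (-b) b, en r (fs G t) ≠ ⊤ := by
  rw [lintegral_en hG] at h
  have h1 : ∫⁻ t in Ioo (-b) b, en r (fs G t) ≤ ENNReal.ofReal (Real.exp b) *
      ∫⁻ t in Ioo (-b) b, ENNReal.ofReal (Real.exp t) * en r (fs G t) := by
    rw [← lintegral_const_mul' _ _ ENNReal.ofReal_ne_top]
    refine lintegral_mono_ae ?_
    filter_upwards [ae_restrict_mem measurableSet_Ioo] with t ht
    rw [← mul_assoc, ← ENNReal.ofReal_mul (Real.exp_pos _).le, ← Real.exp_add]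
    refine le_mul_of_one_le_left zero_le ?_
    rw [ENNReal.one_le_ofReal]
    apply Real.one_le_exp
    linarith [ht.1]
  exact ne_top_of_le_ne_top (ENNReal.mul_ne_top ENNReal.ofReal_ne_top h) h1

theorem exists_bound {b : ℝ} {G : ℂ → ℂ} (hG : Measurable G) {r : ℝ}
    (h : ∫⁻ w, ‖G w‖ₑ ^ 2 * ENNReal.ofReal (Real.exp (-2 * r * w.re)) ∂(mu0 b) ≠ ⊤)
    {A : ℝ} (hA : 0 ≤ A) :
    ∃ n : ℝ → ℝ, (∀ t, 0 ≤ n t) ∧ Measurable n ∧ IntegrableOn (fun t => n t ^ 2) (Ioo (-b) b) ∧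
      ∀ᵐ (t : ℝ) ∂(volume.restrict (Ioo (-b) b)), en r (fs G t) ≠ ⊤ ∧
        ∀ x : ℂ, ∀ B : ℝ, 0 ≤ B → ‖x‖ₑ ^ 2 ≤ ENNReal.ofReal (A * B ^ 2) * en r (fs G t) →
          ‖x‖ ≤ B * n t := by
  have h1 := lintegral_en_ne_top hG h
  have hm := measurable_en hG r
  refine ⟨fun t => √(A * (en r (fs G t)).toReal), fun t => Real.sqrt_nonneg _, ?_, ?_, ?_⟩
  · exact (hm.ennreal_toReal.const_mul A).sqrt
  · have h2 : ∀ t, √(A * (en r (fs G t)).toReal) ^ 2 = A * (en r (fs G t)).toReal :=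
      fun t => Real.sq_sqrt (mul_nonneg hA ENNReal.toReal_nonneg)
    simp only [h2]
    exact (integrable_toReal_of_lintegral_ne_top hm.aemeasurable h1).const_mul A
  · have h3 := ae_lt_top' hm.aemeasurable h1
    filter_upwards [h3] with t ht
    refine ⟨ht.ne, fun x B hB hx => ?_⟩
    have h4 := ENNReal.toReal_mono (ENNReal.mul_ne_top ENNReal.ofReal_ne_top ht.ne) hx
    rw [ENNReal.toReal_mul, ENNReal.toReal_ofReal (by positivity), ENNReal.toReal_pow,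
      toReal_enorm] at h4
    refine (pow_le_pow_iff_left₀ (norm_nonneg _) (by positivity) two_ne_zero).1 ?_
    rw [mul_pow, Real.sq_sqrt (mul_nonneg hA ENNReal.toReal_nonneg)]
    linarith

/-- The small bound. -/
theorem small_bound {b : ℝ} {F : ℂ → ℂ} (h : Ok b F) {c : ℕ → ℂ} {N : ℕ} {r : ℝ}
    (hr : 1 / 2 < r)
    (hfin : ∫⁻ w, ‖rem F c N w‖ₑ ^ 2 * ENNReal.ofReal (Real.exp (-2 * r * w.re)) ∂(mu0 b) ≠ ⊤) :
    ∃ n : ℝ → ℝ, (∀ t, 0 ≤ n t) ∧ Measurable n ∧ IntegrableOn (fun t => n t ^ 2) (Ioo (-b) b) ∧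
      ∀ᵐ (t : ℝ) ∂(volume.restrict (Ioo (-b) b)), ∀ l : ℝ, l ≤ 0 →
        ‖Psi F (l + t * Complex.I) - ∑ j ∈ Finset.range N, (c j * kap j) *
          Complex.exp ((j + 1) * (l + t * Complex.I))‖ ≤ Real.exp (r * l) * n t := by
  have hFm := h.meas
  have hremm : Measurable (rem F c N) := by
    unfold rem
    refine hFm.sub ?_
    refine Finset.measurable_sum _ fun j _ => ?_
    fun_prop
  have hA : 0 ≤ Real.exp 4 * KK (2 * r) := mul_nonneg (Real.exp_pos _).le (KK_nonneg _)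
  obtain ⟨n, hn0, hnm, hni, hn⟩ := exists_bound hremm hfin hA
  refine ⟨n, hn0, hnm, hni, ?_⟩
  filter_upwards [hn, ae_restrict_mem measurableSet_Ioo] with t ht htb l hl
  have htb' : |t| < b := abs_lt.2 htb
  refine (norm_Psi_sub h htb' hl c N).trans (ht.2 _ _ (Real.exp_pos _).le ?_)
  set lam := Real.exp l with hlam
  have hlam0 : 0 < lam := Real.exp_pos l
  have hlam1 : lam ≤ 1 := Real.exp_le_one_iff.2 hl
  have h1 : 1 / 2 < 1 / lam := by
    rw [lt_div_iff₀ hlam0]; linarith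
  have h2 : 1 / lam < 2 / lam := by
    gcongr; norm_num
  have h3 := slice_sq (nice_rem h htb' c N) hr hlam0.le h1 h2 (c := 1) (by norm_num)
  have h4 : Real.exp (2 * lam * (2 / lam)) = Real.exp 4 := by
    congr 1; field_simp; norm_num
  rw [h4, show 2 / lam - 1 / lam = 1 / lam by ring] at h3
  -- multiply by `lam`
  have h5 : ‖vl (fs (rem F c N) t) lam 1‖ₑ ^ 2 = ENNReal.ofReal lam *
      (ENNReal.ofReal (1 / lam) * ‖vl (fs (rem F c N) t) lam 1‖ₑ ^ 2) := by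
    rw [← mul_assoc, ← ENNReal.ofReal_mul hlam0.le, mul_one_div_cancel hlam0.ne',
      ENNReal.ofReal_one, one_mul]
  rw [h5]
  refine (mul_le_mul_right h3 _).trans (le_of_eq ?_)
  rw [← mul_assoc, ← ENNReal.ofReal_mul hlam0.le]
  congr 2
  have h6 : Real.exp (r * l) ^ 2 = lam * (1 / lam) ^ (1 - 2 * r) := by
    rw [one_div, Real.inv_rpow hlam0.le, ← Real.rpow_neg hlam0.le]
    nth_rewrite 1 [← Real.rpow_one lam]
    rw [← Real.rpow_add hlam0, hlam, ← Real.exp_mul, ← Real.exp_nat_mul]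
    congr 1
    push_cast
    ring
  rw [h6]
  ring

/-- The large bound. -/
theorem large_bound {b : ℝ} {F : ℂ → ℂ} (h : Ok b F) :
    ∃ n : ℝ → ℝ, (∀ t, 0 ≤ n t) ∧ Measurable n ∧ IntegrableOn (fun t => n t ^ 2) (Ioo (-b) b) ∧
      ∀ᵐ (t : ℝ) ∂(volume.restrict (Ioo (-b) b)), ∀ l : ℝ,
        ‖Psi F (l + t * Complex.I)‖ ≤ Real.exp (3 / 4 * Real.exp l) * n t := by
  have hA : 0 ≤ 8 * ((5 / 8 : ℝ) ^ (1 - 2 * (3 / 4 : ℝ)) * KK (2 * (3 / 4))) := by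
    have := KK_nonneg (2 * (3 / 4))
    positivity
  obtain ⟨n, hn0, hnm, hni, hn⟩ := exists_bound h.meas h.fin hA
  refine ⟨n, hn0, hnm, hni, ?_⟩
  filter_upwards [hn, ae_restrict_mem measurableSet_Ioo] with t ht htb l
  have htb' : |t| < b := abs_lt.2 htb
  set lam := Real.exp l with hlam
  have hlam0 : 0 < lam := Real.exp_pos l
  have h0 : ‖Psi F (l + t * Complex.I)‖ ≤ ‖vl (fs F t) lam 1‖ := by
    unfold Psi
    have him : ((l : ℂ) + t * Complex.I).im = t := by simp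
    have hre : ((l : ℂ) + t * Complex.I).re = l := by simp
    rw [him, hre, norm_mul, norm_div, Complex.norm_exp_ofReal_mul_I]
    have h1 : ‖(2 * π : ℂ)‖ = 2 * π := by
      rw [norm_mul, Complex.norm_real, Real.norm_of_nonneg Real.pi_pos.le]
      simp
    rw [h1]
    have h2 : (1 : ℝ) / (2 * π) ≤ 1 := by
      rw [div_le_one (by positivity)]
      linarith [Real.pi_gt_three]
    exact mul_le_of_le_one_left (norm_nonneg _) h2
  refine h0.trans (ht.2 _ _ (Real.exp_pos _).le ?_)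
  have h3 := slice_sq (nice_fs h htb') (r := 3 / 4) (lam := lam) (c1 := 5 / 8) (c2 := 3 / 4)
    (c := 1) (by norm_num) hlam0.le (by norm_num) (by norm_num) (by norm_num)
  have h5 : ‖vl (fs F t) lam 1‖ₑ ^ 2 = ENNReal.ofReal 8 *
      (ENNReal.ofReal (3 / 4 - 5 / 8) * ‖vl (fs F t) lam 1‖ₑ ^ 2) := by
    rw [← mul_assoc, ← ENNReal.ofReal_mul (by norm_num)]
    norm_num
  rw [h5]
  refine (mul_le_mul_right h3 _).trans (le_of_eq ?_)
  rw [← mul_assoc, ← ENNReal.ofReal_mul (by norm_num)]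
  congr 2
  rw [← Real.exp_nat_mul]
  have h6 : ((2 : ℕ) : ℝ) * (3 / 4 * lam) = 2 * lam * (3 / 4) := by push_cast; ring
  rw [h6]
  ring

end Pool.Agent.Worm.Br
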