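import Pool.Agent.Worm.Br.BCoord

/-!
# Pointwise bounds (MP_3c4b73_an)
-/

open MeasureTheory Set Filter Metric
open scoped Real ENNReal Topology ComplexConjugate

namespace Pool.Agent.Worm.Br

/-- A small disc around a point of `D(t)` lies in many neighbouring discs. -/
theorem ball_subset_D0 {c0 ε σ t τ : ℝ} {ζ : ℂ} (_hε : 0 < ε) (hε1 : 3 * ε / 2 < π / 2)
    (hε2 : 1 / 2 < Real.exp (-ε) * Real.cos (3 * ε / 2) * c0) (hc0 : 1 / 2 < c0)
    (hζ : c0 ≤ ζ.re) (hσ : σ = 1 ∨ σ = -1) (hσζ : σ * ζ.im ≤ 0) (hτ : ε / 2 < τ) (hτ' : τ < ε) :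
    ball (ph t ζ) (ε / 2) ⊆ D0 (t + σ * τ) := by
  intro w hw
  set δ : ℂ := w - ph t ζ with hδ
  have hδn : ‖δ‖ < ε / 2 := by
    rw [mem_ball, dist_eq_norm] at hw
    exact hw
  have hδ1 := (Complex.abs_re_le_norm δ).trans_lt hδn
  have hδ2 := (Complex.abs_im_le_norm δ).trans_lt hδn
  have hw' : w = ph t ζ + δ := by rw [hδ]; ring
  have hζHP : ζ ∈ HP := by
    show 1 / 2 < ζ.re
    linarith
  have hζ0 := ne_zero_of_HP hζHP
  have hre := re_pos_of_HP hζHP
  have hσ2 : σ * σ = 1 := by rcases hσ with rfl | rfl <;> norm_num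
  have hpi := Real.pi_pos
  -- the angle
  set θ : ℝ := σ * τ - δ.im with hθ
  have hσδ : |σ * δ.im| < ε / 2 := by
    rw [abs_mul]
    rcases hσ with rfl | rfl
    · simpa using hδ2
    · simpa using hδ2
  have hσθ : σ * θ = τ - σ * δ.im := by
    rw [hθ]
    calc σ * (σ * τ - δ.im) = (σ * σ) * τ - σ * δ.im := by ring
      _ = _ := by rw [hσ2, one_mul]
  have h1 := abs_lt.1 hσδ
  have hθ0 : 0 < σ * θ := by rw [hσθ]; linarith [h1.2]
  have hθ1 : σ * θ < 3 * ε / 2 := by rw [hσθ]; linarith [h1.1]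
  have hsin : 0 < σ * Real.sin θ := by
    have : σ * Real.sin θ = Real.sin (σ * θ) := by
      rcases hσ with rfl | rfl <;> simp
    rw [this]
    exact Real.sin_pos_of_pos_of_lt_pi hθ0 (by linarith)
  have hcos : Real.cos (3 * ε / 2) ≤ Real.cos θ := by
    have : Real.cos θ = Real.cos (σ * θ) := by
      rcases hσ with rfl | rfl <;> simp
    rw [this]
    exact Real.cos_le_cos_of_nonneg_of_le_pi hθ0.le (by linarith) hθ1.le
  have hcos0 : 0 < Real.cos (3 * ε / 2) :=
    Real.cos_pos_of_mem_Ioo ⟨by linarith, by linarith⟩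
  rw [mem_D0_iff]
  constructor
  · -- the imaginary part
    have h2 : w.im - (t + σ * τ) = -(ζ.arg + θ) := by
      rw [hw', Complex.add_im, ph_im, hθ]
      ring
    rw [h2, abs_neg]
    have harg : |ζ.arg| < π / 2 := Complex.abs_arg_lt_pi_div_two_iff.2 (Or.inl hre)
    have hσarg : σ * ζ.arg ≤ 0 := by
      rcases hσ with rfl | rfl
      · rw [one_mul] at hσζ ⊢
        rcases hσζ.lt_or_eq with h | h
        · exact (Complex.arg_neg_iff.2 h).le
        · have : ζ.arg = 0 := by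
            rw [Complex.arg_eq_zero_iff]
            exact ⟨hre.le, h⟩
          rw [this]
      · rw [neg_one_mul] at hσζ ⊢
        have : 0 ≤ ζ.arg := Complex.arg_nonneg_iff.2 (by linarith)
        linarith
    have h3 : |σ * ζ.arg| < π / 2 := by
      rw [abs_mul]
      rcases hσ with rfl | rfl
      · simpa using harg
      · simpa using harg
    have h4 : |ζ.arg + θ| = |σ * (ζ.arg + θ)| := by
      rw [abs_mul]
      rcases hσ with rfl | rfl <;> simp
    rw [h4, mul_add, abs_lt]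
    have h5 := abs_lt.1 h3
    constructor
    · linarith [h5.1]
    · linarith [h5.2]
  · -- the real part
    show 1 / 2 < (Complex.exp (((t + σ * τ : ℝ) : ℂ) * Complex.I - w)).re
    have h6 : Complex.exp (((t + σ * τ : ℝ) : ℂ) * Complex.I - w) =
        ζ * Complex.exp (((-δ.re : ℝ) : ℂ) + (θ : ℂ) * Complex.I) := by
      rw [show ζ * Complex.exp (((-δ.re : ℝ) : ℂ) + (θ : ℂ) * Complex.I) =
        Complex.exp (t * Complex.I - ph t ζ) * Complex.exp (((-δ.re : ℝ) : ℂ) + (θ : ℂ) * Complex.I)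
        by rw [exp_sub_ph hζ0], ← Complex.exp_add]
      congr 1
      rw [hw']
      have : δ = (δ.re : ℂ) + δ.im * Complex.I := (Complex.re_add_im δ).symm
      rw [hθ]
      nth_rewrite 1 [this]
      push_cast
      ring
    rw [h6, Complex.exp_add, ← Complex.ofReal_exp, ← mul_assoc, mul_comm ζ, mul_assoc,
      Complex.re_ofReal_mul, Complex.mul_re, Complex.exp_ofReal_mul_I_re,
      Complex.exp_ofReal_mul_I_im]
    have h7 : 0 ≤ -(ζ.im * Real.sin θ) := by
      have : ζ.im * Real.sin θ = (σ * ζ.im) * (σ * Real.sin θ) := by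
        calc ζ.im * Real.sin θ = (σ * σ) * (ζ.im * Real.sin θ) := by rw [hσ2, one_mul]
          _ = _ := by ring
      rw [this]
      nlinarith
    have h8 : c0 * Real.cos (3 * ε / 2) ≤ ζ.re * Real.cos θ := by
      have : 0 ≤ Real.cos θ := hcos0.le.trans hcos
      exact mul_le_mul hζ hcos hcos0.le (by linarith)
    have h9 : Real.exp (-ε) ≤ Real.exp (-δ.re) := by
      apply Real.exp_le_exp.2
      have := abs_lt.1 hδ1
      linarith [this.2]
    calc (1 / 2 : ℝ) < Real.exp (-ε) * Real.cos (3 * ε / 2) * c0 := hε2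
      _ = Real.exp (-ε) * (c0 * Real.cos (3 * ε / 2)) := by ring
      _ ≤ Real.exp (-δ.re) * (ζ.re * Real.cos θ - ζ.im * Real.sin θ) := by
          refine mul_le_mul h9 (by linarith) ?_ (Real.exp_pos _).le
          have := hcos0.le
          positivity

theorem exists_eps {c0 κ : ℝ} (hc0 : 1 / 2 < c0) (hκ : 0 < κ) :
    ∃ ε : ℝ, 0 < ε ∧ 3 * ε / 2 < π / 2 ∧ ε < κ ∧
      1 / 2 < Real.exp (-ε) * Real.cos (3 * ε / 2) * c0 := by
  have h1 : Tendsto (fun ε : ℝ => Real.exp (-ε) * Real.cos (3 * ε / 2) * c0) (𝓝 0)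
      (𝓝 (Real.exp (-0) * Real.cos (3 * 0 / 2) * c0)) := by
    refine Continuous.tendsto ?_ 0
    fun_prop
  have h2 : ∀ᶠ ε in 𝓝 (0 : ℝ), 1 / 2 < Real.exp (-ε) * Real.cos (3 * ε / 2) * c0 := by
    refine h1.eventually (lt_mem_nhds ?_)
    simpa using hc0
  have h3 : ∀ᶠ ε in 𝓝 (0 : ℝ), ε < κ := gt_mem_nhds hκ
  have h4 : ∀ᶠ ε in 𝓝 (0 : ℝ), ε < 1 := gt_mem_nhds one_pos
  have h5 : ∀ᶠ ε in 𝓝[>] (0 : ℝ), 0 < ε ∧ ε < 1 ∧ ε < κ ∧
      1 / 2 < Real.exp (-ε) * Real.cos (3 * ε / 2) * c0 := by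
    filter_upwards [self_mem_nhdsWithin, h4.filter_mono nhdsWithin_le_nhds,
      h3.filter_mono nhdsWithin_le_nhds, h2.filter_mono nhdsWithin_le_nhds] with ε a1 a2 a3 a4
    exact ⟨a1, a2, a3, a4⟩
  obtain ⟨ε, a1, a2, a3, a4⟩ := h5.exists
  exact ⟨ε, a1, by linarith [Real.pi_gt_three], a3, a4⟩

theorem D0_subset_S0 {b t : ℝ} (ht : |t| < b) : D0 t ⊆ S0 b := fun _ hw => ⟨t, ht, hw⟩

/-- The pointwise bound. -/
theorem pointwise {b : ℝ} {F : ℂ → ℂ} (hF : DifferentiableOn ℂ F (S0 b)) (hFm : Measurable F)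
    (hM : ∫⁻ w, ‖F w‖ₑ ^ 2 * ENNReal.ofReal (Real.exp (-2 * (3 / 4) * w.re)) ∂(mu0 b) ≠ ⊤)
    {c0 κ : ℝ} (hc0 : 1 / 2 < c0) (hκ : 0 < κ) :
    ∃ K : ℝ, 0 ≤ K ∧ ∀ (t : ℝ) (ζ : ℂ), |t| ≤ b - κ → c0 ≤ ζ.re →
      ‖F (ph t ζ)‖ ≤ K * ‖ζ‖ ^ (1 / 4 : ℝ) := by
  obtain ⟨ε, hε, hε1, hεκ, hε2⟩ := exists_eps hc0 hκ
  set G : ℂ → ℝ≥0∞ := fun w => ‖F w‖ₑ ^ 2 * ENNReal.ofReal (Real.exp (-2 * (3 / 4) * w.re)) with hG
  have hGm : Measurable G := by
    rw [hG]; fun_prop
  set M0 := ∫⁻ w, G w ∂(mu0 b) with hM0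
  have hM0' : M0 = ∫⁻ t in Ioo (-b) b,
      ENNReal.ofReal (Real.exp t) * ∫⁻ w in D0 t, G w ∂areaM := lintegral_mu0 hGm
  set A : ℝ := (ε / 2) * (π * (ε / 2) ^ 2) with hA
  have hApos : 0 < A := by positivity
  set B : ℝ := Real.exp (ε / 4) * Real.exp b with hB
  have hBpos : 0 < B := by positivity
  refine ⟨√(B * M0.toReal / A), Real.sqrt_nonneg _, ?_⟩
  intro t ζ ht hζ
  have hζHP : ζ ∈ HP := by
    show 1 / 2 < ζ.re
    linarith
  have hζ0 : 0 < ‖ζ‖ := norm_pos_iff.2 (ne_zero_of_HP hζHP)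
  set w := ph t ζ with hw
  obtain ⟨σ, hσ, hσζ⟩ : ∃ σ : ℝ, (σ = 1 ∨ σ = -1) ∧ σ * ζ.im ≤ 0 := by
    rcases le_total ζ.im 0 with h | h
    · exact ⟨1, Or.inl rfl, by linarith⟩
    · exact ⟨-1, Or.inr rfl, by linarith⟩
  -- the estimate for one neighbouring disc
  have hone : ∀ τ : ℝ, ε / 2 < τ → τ < ε →
      ENNReal.ofReal (π * (ε / 2) ^ 2) * ‖F w‖ₑ ^ 2 ≤
        ENNReal.ofReal (Real.exp (ε / 4) * Real.exp (-(w.re / 2))) *
          ∫⁻ z in D0 (t + σ * τ), G z ∂areaM := by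
    intro τ hτ hτ'
    have hsub := ball_subset_D0 (t := t) hε hε1 hε2 hc0 hζ hσ hσζ hτ hτ'
    have htb : |t + σ * τ| < b := by
      have h1 : |σ * τ| < ε := by
        rw [abs_mul]
        rcases hσ with rfl | rfl
        · rw [abs_one, one_mul, abs_of_pos (by linarith)]; exact hτ'
        · rw [abs_neg, abs_one, one_mul, abs_of_pos (by linarith)]; exact hτ'
      calc |t + σ * τ| ≤ |t| + |σ * τ| := abs_add_le _ _
        _ < b := by linarith
    have hhol : DifferentiableOn ℂ F (ball w (ε / 2)) :=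
      hF.mono (hsub.trans (D0_subset_S0 htb))
    refine (mean_sq (by linarith) hhol).trans ?_
    have h3 : ∫⁻ z in D0 (t + σ * τ), G z ∂areaM =
        ∫⁻ z in D0 (t + σ * τ), ENNReal.ofReal (Real.exp (2 * z.re)) * G z := by
      unfold areaM
      rw [restrict_withDensity (measurableSet_D0 _),
        lintegral_withDensity_eq_lintegral_mul _ measurable_areaDensity hGm]
      rfl
    rw [h3, ← lintegral_const_mul _ (by fun_prop)]
    refine le_trans ?_ (lintegral_mono_set hsub)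
    refine setLIntegral_mono (by fun_prop) fun z hz => ?_
    have h4 : |z.re - w.re| < ε / 2 := by
      rw [mem_ball, dist_eq_norm] at hz
      have := (Complex.abs_re_le_norm (z - w)).trans_lt hz
      rwa [Complex.sub_re] at this
    have h5 := abs_lt.1 h4
    simp only [hG]
    rw [mul_left_comm (ENNReal.ofReal (Real.exp (2 * z.re))), mul_left_comm,
      ← ENNReal.ofReal_mul (Real.exp_pos _).le, ← ENNReal.ofReal_mul (by positivity)]
    refine le_mul_of_one_le_right zero_le ?_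
    rw [ENNReal.one_le_ofReal, ← Real.exp_add, ← Real.exp_add, ← Real.exp_add]
    apply Real.one_le_exp
    linarith [h5.2]
  -- integrate over the neighbours
  have hint : ENNReal.ofReal A * ‖F w‖ₑ ^ 2 ≤
      ENNReal.ofReal (B * Real.exp (-(w.re / 2))) * M0 := by
    have h6 : ENNReal.ofReal A * ‖F w‖ₑ ^ 2 =
        ∫⁻ _τ in Ioo (ε / 2) ε, ENNReal.ofReal (π * (ε / 2) ^ 2) * ‖F w‖ₑ ^ 2 := by
      rw [setLIntegral_const, Real.volume_Ioo, hA, ENNReal.ofReal_mul (by linarith)]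
      rw [show ε - ε / 2 = ε / 2 by ring]
      ring
    rw [h6]
    set J : ℝ → ℝ≥0∞ := fun s => ENNReal.ofReal (Real.exp s) * ∫⁻ z in D0 s, G z ∂areaM with hJ
    set D : ℝ≥0∞ := ENNReal.ofReal (B * Real.exp (-(w.re / 2))) with hD
    have htb' : ∀ τ : ℝ, ε / 2 < τ → τ < ε → |t + σ * τ| < b := by
      intro τ hτ hτ'
      have h1 : |σ * τ| < ε := by
        rw [abs_mul]
        rcases hσ with rfl | rfl
        · rw [abs_one, one_mul, abs_of_pos (by linarith)]; exact hτ'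
        · rw [abs_neg, abs_one, one_mul, abs_of_pos (by linarith)]; exact hτ'
      calc |t + σ * τ| ≤ |t| + |σ * τ| := abs_add_le _ _
        _ < b := by linarith
    calc ∫⁻ _τ in Ioo (ε / 2) ε, ENNReal.ofReal (π * (ε / 2) ^ 2) * ‖F w‖ₑ ^ 2
        ≤ ∫⁻ τ in Ioo (ε / 2) ε, D * J (t + σ * τ) := by
          refine lintegral_mono_ae ?_
          filter_upwards [ae_restrict_mem measurableSet_Ioo] with τ hτ
          refine (hone τ hτ.1 hτ.2).trans ?_
          simp only [hJ, hD]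
          rw [← mul_assoc, ← ENNReal.ofReal_mul (by positivity)]
          refine mul_le_mul_left (ENNReal.ofReal_le_ofReal ?_) _
          have h7 : 1 ≤ Real.exp b * Real.exp (t + σ * τ) := by
            rw [← Real.exp_add]
            apply Real.one_le_exp
            linarith [(abs_lt.1 (htb' τ hτ.1 hτ.2)).1]
          calc Real.exp (ε / 4) * Real.exp (-(w.re / 2))
              ≤ (Real.exp (ε / 4) * Real.exp (-(w.re / 2))) *
                (Real.exp b * Real.exp (t + σ * τ)) := le_mul_of_one_le_right (by positivity) h7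
            _ = _ := by rw [hB]; ring
      _ ≤ D * ∫⁻ τ in Ioo (ε / 2) ε, J (t + σ * τ) := by
          rw [lintegral_const_mul']
          exact ENNReal.ofReal_ne_top
      _ ≤ D * M0 := by
          gcongr
          rw [hM0']
          -- change of variables
          have hJ' : ∫⁻ τ in Ioo (ε / 2) ε, J (t + σ * τ) =
              ∫⁻ τ, (Ioo (ε / 2) ε).indicator (fun τ => J (t + σ * τ)) τ :=
            (lintegral_indicator measurableSet_Ioo _).symm
          rw [hJ', ← lintegral_indicator measurableSet_Ioo]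
          have hle : ∀ τ : ℝ, (Ioo (ε / 2) ε).indicator (fun τ => J (t + σ * τ)) τ ≤
              (Ioo (-b) b).indicator J (t + σ * τ) := by
            intro τ
            by_cases h : τ ∈ Ioo (ε / 2) ε
            · rw [indicator_of_mem h, indicator_of_mem]
              exact abs_lt.1 (htb' τ h.1 h.2)
            · rw [indicator_of_notMem h]
              exact zero_le
          refine (lintegral_mono hle).trans (le_of_eq ?_)
          rcases hσ with rfl | rfl
          · simp only [one_mul]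
            exact lintegral_add_left_eq_self (fun s => (Ioo (-b) b).indicator J s) t
          · simp only [neg_one_mul, ← sub_eq_add_neg]
            exact lintegral_sub_left_eq_self (fun s => (Ioo (-b) b).indicator J s) t
  -- conclusion
  have h10 : A * ‖F w‖ ^ 2 ≤ B * Real.exp (-(w.re / 2)) * M0.toReal := by
    have h11 := ENNReal.toReal_mono (ENNReal.mul_ne_top ENNReal.ofReal_ne_top hM) hint
    rw [ENNReal.toReal_mul, ENNReal.toReal_mul, ENNReal.toReal_ofReal hApos.le,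
      ENNReal.toReal_ofReal (by positivity), ENNReal.toReal_pow, toReal_enorm] at h11
    exact h11
  have h12 : Real.exp (-(w.re / 2)) = (‖ζ‖ ^ (1 / 4 : ℝ)) ^ 2 := by
    rw [hw, ph_re, ← Real.rpow_natCast, ← Real.rpow_mul hζ0.le, Real.rpow_def_of_pos hζ0]
    congr 1
    push_cast
    ring
  rw [h12] at h10
  have h13 : ‖F w‖ ^ 2 ≤ (√(B * M0.toReal / A) * ‖ζ‖ ^ (1 / 4 : ℝ)) ^ 2 := by
    rw [mul_pow, Real.sq_sqrt (by positivity)]
    rw [← sub_nonneg]
    have : B * M0.toReal / A * (‖ζ‖ ^ (1 / 4 : ℝ)) ^ 2 - ‖F w‖ ^ 2 =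
        (B * (‖ζ‖ ^ (1 / 4 : ℝ)) ^ 2 * M0.toReal - A * ‖F w‖ ^ 2) / A := by
      field_simp
    rw [this]
    exact div_nonneg (by linarith) hApos.le
  exact (pow_le_pow_iff_left₀ (norm_nonneg _) (by positivity) two_ne_zero).1 h13

end Pool.Agent.Worm.Br
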