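import Pool.Agent.Worm.Br.Point

/-!
# The Borel transform (MP_3c4b73_an)
-/

open MeasureTheory Set Filter Metric
open scoped Real ENNReal Topology ComplexConjugate

namespace Pool.Agent.Worm.Br

/-- The function on the slice in the coordinate `ζ`. -/
noncomputable def fs (F : ℂ → ℂ) (t : ℝ) (ζ : ℂ) : ℂ := F (ph t ζ)

/-- The Borel transform. -/
noncomputable def Psi (F : ℂ → ℂ) (τ : ℂ) : ℂ :=
  Complex.exp (τ.im * Complex.I) / (2 * π) * vl (fs F τ.im) (Real.exp τ.re) 1

/-- The standing assumptions on `F`. -/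
structure Ok (b : ℝ) (F : ℂ → ℂ) : Prop where
  meas : Measurable F
  hol : DifferentiableOn ℂ F (S0 b)
  fin : ∫⁻ w, ‖F w‖ₑ ^ 2 * ENNReal.ofReal (Real.exp (-2 * (3 / 4) * w.re)) ∂(mu0 b) ≠ ⊤

theorem differentiableOn_ph (t : ℝ) : DifferentiableOn ℂ (ph t) HP := fun _ hζ =>
  (hasDerivAt_ph hζ).differentiableAt.differentiableWithinAt

theorem nice_fs {b : ℝ} {F : ℂ → ℂ} (h : Ok b F) {t : ℝ} (ht : |t| < b) : Nice (fs F t) := by
  refine ⟨h.meas.comp (measurable_ph t), ?_, ?_⟩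
  · refine (h.hol.mono (D0_subset_S0 ht)).comp (differentiableOn_ph t) ?_
    intro ζ hζ
    exact ph_mem hζ
  · intro c0 hc0
    obtain ⟨K, -, hK⟩ := pointwise h.hol h.meas h.fin hc0 (κ := b - |t|) (by linarith)
    exact ⟨K, fun ζ hζ => hK t ζ (by linarith) hζ⟩

theorem vl_scale (f : ℂ → ℂ) {lam C : ℝ} (hlam : 0 < lam) :
    vl f lam (C / lam) = lam * ∫ v : ℝ, f (ln C v / lam) / (ln C v) ^ 2 * Complex.exp (ln C v) := by
  have hlam' : (lam : ℂ) ≠ 0 := by exact_mod_cast hlam.ne'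
  have h1 := Measure.integral_comp_div (fun u : ℝ => gl f lam (ln (C / lam) u)) lam
  have h2 : ∀ v : ℝ, gl f lam (ln (C / lam) (v / lam)) =
      (lam : ℂ) ^ 2 * (f (ln C v / lam) / (ln C v) ^ 2 * Complex.exp (ln C v)) := by
    intro v
    have h3 : ln (C / lam) (v / lam) = ln C v / lam := by
      simp only [ln]
      push_cast
      field_simp
    unfold gl
    rw [h3]
    have h4 : (lam : ℂ) * (ln C v / lam) = ln C v := by field_simp
    rw [h4]
    by_cases h5 : ln C v = 0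
    · rw [h5]; simp
    · field_simp
  simp only [h2] at h1
  rw [integral_const_mul, abs_of_pos hlam, Complex.real_smul] at h1
  unfold vl
  have h6 : (lam : ℂ) * ∫ u : ℝ, gl f lam (ln (C / lam) u) =
      lam * (lam * ∫ v : ℝ, f (ln C v / lam) / (ln C v) ^ 2 * Complex.exp (ln C v)) := by
    rw [← h1]; ring
  exact mul_left_cancel₀ hlam' h6

theorem ph_div {t lam : ℝ} (hlam : 0 < lam) {z : ℂ} (hz : z ≠ 0) :
    ph t (z / lam) = (Real.log lam : ℂ) + t * Complex.I - Complex.log z := by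
  unfold ph
  have h1 : z / (lam : ℂ) = ((lam⁻¹ : ℝ) : ℂ) * z := by
    push_cast
    rw [div_eq_mul_inv, mul_comm]
  rw [h1, Complex.log_ofReal_mul (inv_pos.2 hlam) hz, Real.log_inv]
  push_cast
  ring

theorem Psi_eq {b : ℝ} {F : ℂ → ℂ} (h : Ok b F) {τ : ℂ} (hτ : |τ.im| < b) {C : ℝ}
    (hC : Real.exp τ.re / 2 < C) :
    Psi F τ = Complex.exp τ / (2 * π) *
      ∫ v : ℝ, F (τ - Complex.log (ln C v)) / (ln C v) ^ 2 * Complex.exp (ln C v) := by
  have hlam := Real.exp_pos τ.re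
  have hC0 : 0 < C := by linarith
  unfold Psi
  have hC2 : 1 / 2 < C / Real.exp τ.re := by
    rw [lt_div_iff₀ hlam]
    linarith
  rw [vl_eq (nice_fs h hτ) _ (by norm_num : (1 / 2 : ℝ) < 1) hC2, vl_scale _ hlam]
  have h1 : Complex.exp τ = Complex.exp (τ.im * Complex.I) * ((Real.exp τ.re : ℝ) : ℂ) := by
    rw [Complex.ofReal_exp, ← Complex.exp_add]
    congr 1
    rw [add_comm]
    exact (Complex.re_add_im τ).symm
  have h2 : ∀ v : ℝ, fs F τ.im (ln C v / (Real.exp τ.re : ℝ)) = F (τ - Complex.log (ln C v)) := by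
    intro v
    unfold fs
    rw [ph_div hlam (ln_ne_zero hC0 v), Real.log_exp, Complex.re_add_im]
  simp only [h2]
  rw [h1]
  ring

/-- The Borel transform is holomorphic. -/
theorem differentiableOn_Psi {b : ℝ} {F : ℂ → ℂ} (h : Ok b F) :
    DifferentiableOn ℂ (Psi F) {τ | |τ.im| < b} := by
  intro τ0 hτ0
  have hτ0' : |τ0.im| < b := hτ0
  refine DifferentiableAt.differentiableWithinAt ?_
  set κ : ℝ := (b - |τ0.im|) / 2 with hκ
  have hκ0 : 0 < κ := by rw [hκ]; linarith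
  set ρ : ℝ := min 1 κ with hρ
  have hρ0 : 0 < ρ := lt_min one_pos hκ0
  have hρ1 : ρ ≤ 1 := min_le_left _ _
  have hρκ : ρ ≤ κ := min_le_right _ _
  set C : ℝ := Real.exp (τ0.re + 1) + 1 with hC
  have hC1 : 1 ≤ C := by rw [hC]; linarith [Real.exp_pos (τ0.re + 1)]
  have hball : ∀ τ ∈ ball τ0 ρ, |τ.im| ≤ b - κ ∧ τ.re < τ0.re + 1 ∧ τ0.re - 1 < τ.re := by
    intro τ hτ
    rw [mem_ball, dist_eq_norm] at hτ
    have h1 := (Complex.abs_im_le_norm (τ - τ0)).trans_lt hτ
    have h2 := (Complex.abs_re_le_norm (τ - τ0)).trans_lt hτ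
    rw [Complex.sub_im] at h1
    rw [Complex.sub_re] at h2
    have h3 := abs_lt.1 h2
    refine ⟨?_, by linarith [h3.2], by linarith [h3.1]⟩
    have h4 : |τ.im| ≤ |τ.im - τ0.im| + |τ0.im| := by
      have := abs_add_le (τ.im - τ0.im) τ0.im
      simpa using this
    rw [hκ] at hρκ ⊢
    linarith
  have hCτ : ∀ τ ∈ ball τ0 ρ, Real.exp τ.re ≤ C := by
    intro τ hτ
    rw [hC]
    have := Real.exp_le_exp.2 (hball τ hτ).2.1.le
    linarith
  obtain ⟨K, hK0, hK⟩ := pointwise h.hol h.meas h.fin (c0 := 1) (by norm_num) hκ0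
  -- points of the line
  have hpt : ∀ τ ∈ ball τ0 ρ, ∀ v : ℝ, τ - Complex.log (ln C v) =
      ph τ.im (ln C v / (Real.exp τ.re : ℝ)) ∧ 1 ≤ (ln C v / (Real.exp τ.re : ℝ)).re := by
    intro τ hτ v
    have hlam := Real.exp_pos τ.re
    constructor
    · rw [ph_div hlam (ln_ne_zero (by linarith) v), Real.log_exp, Complex.re_add_im]
    · rw [Complex.div_ofReal_re, ln_re, one_le_div hlam]
      exact hCτ τ hτ
  have key : DifferentiableAt ℂ (fun τ : ℂ =>
      ∫ v : ℝ, F (τ - Complex.log (ln C v)) / (ln C v) ^ 2 * Complex.exp (ln C v)) τ0 := by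
    refine differentiableAt_integral hρ0
      (g := fun v => (K * Real.exp ((1 - τ0.re) / 4) * Real.exp C) * ‖ln C v‖ ^ (-(7 / 4) : ℝ))
      ?_ ?_ ?_ ?_
    · exact (integrable_ln_rpow (by linarith) (by norm_num)).const_mul _
    · intro τ _
      refine Measurable.aestronglyMeasurable ?_
      have hm := measurable_ln C
      have hFm := h.meas
      refine Measurable.mul (Measurable.div ?_ (hm.pow_const 2)) (Complex.measurable_exp.comp hm)
      exact hFm.comp (measurable_const.sub (Complex.measurable_log.comp hm))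
    · refine Eventually.of_forall fun v => ?_
      refine DifferentiableOn.mul_const (DifferentiableOn.div_const ?_ _) _
      refine h.hol.comp (by fun_prop) ?_
      intro τ hτ
      obtain ⟨h1, h2⟩ := hpt τ hτ v
      show τ - Complex.log (ln C v) ∈ S0 b
      rw [h1]
      refine D0_subset_S0 (t := τ.im) (by linarith [(hball τ hτ).1]) (ph_mem ?_)
      show 1 / 2 < (ln C v / ((Real.exp τ.re : ℝ) : ℂ)).re
      linarith
    · refine Eventually.of_forall fun v τ hτ => ?_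
      obtain ⟨h1, h2⟩ := hpt τ hτ v
      have h3 := hK τ.im _ (hball τ hτ).1 h2
      rw [← h1] at h3
      have hln := norm_ln_pos (c := C) (by linarith) v
      rw [norm_mul, norm_div, norm_pow, Complex.norm_exp, ln_re]
      have hlam := Real.exp_pos τ.re
      have h4 : ‖ln C v / ((Real.exp τ.re : ℝ) : ℂ)‖ ^ (1 / 4 : ℝ) ≤
          Real.exp ((1 - τ0.re) / 4) * ‖ln C v‖ ^ (1 / 4 : ℝ) := by
        rw [norm_div, Complex.norm_real, Real.norm_of_nonneg hlam.le,
          Real.div_rpow (norm_nonneg _) hlam.le, div_eq_mul_inv, mul_comm, ← Real.exp_mul,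
          ← Real.exp_neg]
        refine mul_le_mul_of_nonneg_right (Real.exp_le_exp.2 ?_) (by positivity)
        linarith [(hball τ hτ).2.2]
      have h5 : ‖ln C v‖ ^ (-(7 / 4) : ℝ) = ‖ln C v‖ ^ (1 / 4 : ℝ) / ‖ln C v‖ ^ 2 := by
        rw [← Real.rpow_natCast, ← Real.rpow_sub hln]
        norm_num
      rw [h5]
      have h6 : ‖F (τ - Complex.log (ln C v))‖ ≤
          K * (Real.exp ((1 - τ0.re) / 4) * ‖ln C v‖ ^ (1 / 4 : ℝ)) :=
        h3.trans (mul_le_mul_of_nonneg_left h4 hK0)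
      calc ‖F (τ - Complex.log (ln C v))‖ / ‖ln C v‖ ^ 2 * Real.exp C
          ≤ K * (Real.exp ((1 - τ0.re) / 4) * ‖ln C v‖ ^ (1 / 4 : ℝ)) / ‖ln C v‖ ^ 2 *
            Real.exp C := by gcongr
        _ = _ := by ring
  have h7 : (Psi F) =ᶠ[𝓝 τ0] fun τ => Complex.exp τ / (2 * π) *
      ∫ v : ℝ, F (τ - Complex.log (ln C v)) / (ln C v) ^ 2 * Complex.exp (ln C v) := by
    refine Filter.eventually_of_mem (ball_mem_nhds τ0 hρ0) fun τ hτ => ?_
    refine Psi_eq h (by linarith [(hball τ hτ).1]) ?_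
    have := hCτ τ hτ
    linarith [Real.exp_pos τ.re]
  refine DifferentiableAt.congr_of_eventuallyEq ?_ h7
  exact (Complex.differentiable_exp.differentiableAt.div_const _).mul key

end Pool.Agent.Worm.Br
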